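import Pool.Agent.Helper96.Hyp.Lattice

/-!
The base chamber, its 27 walls, and the integral Lorentz group.
-/

namespace Pool.Agent.Helper96.Hyp

/-- The base chamber. -/
def c0 : V := ![3, 1, 1, 1, 1, 1, 1]

/-- The outward normals of the 27 walls of the base chamber. -/
def line : Fin 27 → V :=
  ![![0, -1, 0, 0, 0, 0, 0], ![0, 0, -1, 0, 0, 0, 0], ![0, 0, 0, -1, 0, 0, 0],
    ![0, 0, 0, 0, -1, 0, 0], ![0, 0, 0, 0, 0, -1, 0], ![0, 0, 0, 0, 0, 0, -1],
    ![2, 0, 1, 1, 1, 1, 1], ![2, 1, 0, 1, 1, 1, 1], ![2, 1, 1, 0, 1, 1, 1],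
    ![2, 1, 1, 1, 0, 1, 1], ![2, 1, 1, 1, 1, 0, 1], ![2, 1, 1, 1, 1, 1, 0],
    ![1, 1, 1, 0, 0, 0, 0], ![1, 1, 0, 1, 0, 0, 0], ![1, 1, 0, 0, 1, 0, 0],
    ![1, 1, 0, 0, 0, 1, 0], ![1, 1, 0, 0, 0, 0, 1], ![1, 0, 1, 1, 0, 0, 0],
    ![1, 0, 1, 0, 1, 0, 0], ![1, 0, 1, 0, 0, 1, 0], ![1, 0, 1, 0, 0, 0, 1],
    ![1, 0, 0, 1, 1, 0, 0], ![1, 0, 0, 1, 0, 1, 0], ![1, 0, 0, 1, 0, 0, 1],
    ![1, 0, 0, 0, 1, 1, 0], ![1, 0, 0, 0, 1, 0, 1], ![1, 0, 0, 0, 0, 1, 1]]

/-- `y` is a chamber: an all-odd future vector of norm `-3`. -/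
def IsCh (y : V) : Prop := (∀ i, y i % 2 = 1) ∧ B y y = -3 ∧ 0 < y 0

/-- `v` is an outward normal of a wall of `y`. -/
def IsWall (y v : V) : Prop := B v v = 1 ∧ B y v = -1

lemma isCh_c0 : IsCh c0 := by
  refine ⟨by decide, by decide, by decide⟩

lemma isWall_line (F : Fin 27) : IsWall c0 (line F) := by
  revert F; unfold IsWall; decide

lemma B_line_line (F G : Fin 27) (h : F ≠ G) :
    B (line F) (line G) = 0 ∨ B (line F) (line G) = -1 := by
  revert F G; decide

lemma B_line_self (F : Fin 27) : B (line F) (line F) = 1 := (isWall_line F).1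

lemma line_mod (F G : Fin 27) (h : ∀ i, (line F i - line G i) % 2 = 0) : F = G := by
  revert F G; decide

lemma line_injective : Function.Injective line := by
  intro F G h
  exact line_mod F G (by intro i; rw [h]; simp)

lemma vec_eta (v : V) : v = ![v 0, v 1, v 2, v 3, v 4, v 5, v 6] := by
  funext i; fin_cases i <;> rfl

lemma int_mul_pred_nonneg (a : ℤ) : 0 ≤ a * (a - 1) := by
  rcases le_or_gt a 0 with h | h
  · nlinarith
  · nlinarith [Int.lt_iff_add_one_le.1 h]

lemma int_zero_or_one {a : ℤ} (h : a * (a - 1) ≤ 0) : a = 0 ∨ a = 1 := by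
  have h' : a * (a - 1) = 0 := le_antisymm h (int_mul_pred_nonneg a)
  rcases mul_eq_zero.1 h' with h | h
  · exact Or.inl h
  · exact Or.inr (by linarith)

set_option maxHeartbeats 4000000 in
lemma wall_c0 {v : V} (h : IsWall c0 v) : ∃ F, v = line F := by
  obtain ⟨h1, h2⟩ := h
  have hs : S v c0 = v 1 + v 2 + v 3 + v 4 + v 5 + v 6 := by simp [S, c0]
  have hcs := S_cs v c0
  have hc : S c0 c0 = 6 := by decide
  have e1 : S v v = v 0 * v 0 + 1 := by simp only [B] at h1; linarith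
  have e2 : v 1 + v 2 + v 3 + v 4 + v 5 + v 6 = 3 * v 0 - 1 := by
    have : B c0 v = -(3 * v 0) + (v 1 + v 2 + v 3 + v 4 + v 5 + v 6) := by simp [B, S, c0]
    linarith
  rw [hs, hc, e1, e2] at hcs
  have b1 : 0 ≤ v 0 := by nlinarith
  have b2 : v 0 ≤ 2 := by nlinarith
  have e3 : v 1 * v 1 + v 2 * v 2 + v 3 * v 3 + v 4 * v 4 + v 5 * v 5 + v 6 * v 6
      = v 0 * v 0 + 1 := by rw [← e1]; rfl
  clear hcs hs hc e1 h1 h2
  have q1 := int_mul_pred_nonneg (v 1)
  have q2 := int_mul_pred_nonneg (v 2)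
  have q3 := int_mul_pred_nonneg (v 3)
  have q4 := int_mul_pred_nonneg (v 4)
  have q5 := int_mul_pred_nonneg (v 5)
  have q6 := int_mul_pred_nonneg (v 6)
  have r1 := int_mul_pred_nonneg (-v 1)
  have r2 := int_mul_pred_nonneg (-v 2)
  have r3 := int_mul_pred_nonneg (-v 3)
  have r4 := int_mul_pred_nonneg (-v 4)
  have r5 := int_mul_pred_nonneg (-v 5)
  have r6 := int_mul_pred_nonneg (-v 6)
  rcases (by omega : v 0 = 0 ∨ v 0 = 1 ∨ v 0 = 2) with h0 | h0 | h0
  · rw [h0] at e2 e3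
    have s1 := int_zero_or_one (a := -v 1) (by linarith)
    have s2 := int_zero_or_one (a := -v 2) (by linarith)
    have s3 := int_zero_or_one (a := -v 3) (by linarith)
    have s4 := int_zero_or_one (a := -v 4) (by linarith)
    have s5 := int_zero_or_one (a := -v 5) (by linarith)
    have s6 := int_zero_or_one (a := -v 6) (by linarith)
    clear q1 q2 q3 q4 q5 q6 r1 r2 r3 r4 r5 r6 e3
    rw [vec_eta v]
    rcases s1 with s1 | s1 <;> rcases s2 with s2 | s2 <;> rcases s3 with s3 | s3 <;>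
    rcases s4 with s4 | s4 <;> rcases s5 with s5 | s5 <;> rcases s6 with s6 | s6 <;>
    first
    | (exfalso; omega)
    | (rw [h0, show v 1 = _ from neg_eq_iff_eq_neg.1 s1, show v 2 = _ from neg_eq_iff_eq_neg.1 s2,
        show v 3 = _ from neg_eq_iff_eq_neg.1 s3, show v 4 = _ from neg_eq_iff_eq_neg.1 s4,
        show v 5 = _ from neg_eq_iff_eq_neg.1 s5, show v 6 = _ from neg_eq_iff_eq_neg.1 s6]
       decide)
  · rw [h0] at e2 e3
    have s1 := int_zero_or_one (a := v 1) (by linarith)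
    have s2 := int_zero_or_one (a := v 2) (by linarith)
    have s3 := int_zero_or_one (a := v 3) (by linarith)
    have s4 := int_zero_or_one (a := v 4) (by linarith)
    have s5 := int_zero_or_one (a := v 5) (by linarith)
    have s6 := int_zero_or_one (a := v 6) (by linarith)
    clear q1 q2 q3 q4 q5 q6 r1 r2 r3 r4 r5 r6 e3
    rw [vec_eta v]
    rcases s1 with s1 | s1 <;> rcases s2 with s2 | s2 <;> rcases s3 with s3 | s3 <;>
    rcases s4 with s4 | s4 <;> rcases s5 with s5 | s5 <;> rcases s6 with s6 | s6 <;>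
    first
    | (exfalso; omega)
    | (rw [h0, s1, s2, s3, s4, s5, s6]; decide)
  · rw [h0] at e2 e3
    have s1 := int_zero_or_one (a := v 1) (by linarith)
    have s2 := int_zero_or_one (a := v 2) (by linarith)
    have s3 := int_zero_or_one (a := v 3) (by linarith)
    have s4 := int_zero_or_one (a := v 4) (by linarith)
    have s5 := int_zero_or_one (a := v 5) (by linarith)
    have s6 := int_zero_or_one (a := v 6) (by linarith)
    clear q1 q2 q3 q4 q5 q6 r1 r2 r3 r4 r5 r6 e3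
    rw [vec_eta v]
    rcases s1 with s1 | s1 <;> rcases s2 with s2 | s2 <;> rcases s3 with s3 | s3 <;>
    rcases s4 with s4 | s4 <;> rcases s5 with s5 | s5 <;> rcases s6 with s6 | s6 <;>
    first
    | (exfalso; omega)
    | (rw [h0, s1, s2, s3, s4, s5, s6]; decide)

/-! ### The integral Lorentz group -/

lemma zero_ne_of_timelike {x : V} (hx : B x x < 0) : x 0 ≠ 0 := by
  intro h
  have := S_nonneg x
  simp only [B, h] at hx
  linarith

lemma future_of_B_neg {x y : V} (hx : B x x < 0) (hx0 : 0 < x 0) (hy : B y y < 0)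
    (h : B x y < 0) : 0 < y 0 := by
  by_contra hc
  have h0 : y 0 ≠ 0 := zero_ne_of_timelike hy
  have h1 : 0 < (-y) 0 := by
    simp only [Pi.neg_apply]; omega
  have h2 := B_neg_of_future hx hx0 (y := -y) (by rw [B_neg_left, B_neg_right]; linarith) h1
  rw [B_neg_right] at h2
  linarith

/-- The integral Lorentz group preserving the time orientation. -/
def W : Subgroup (V ≃ₗ[ℤ] V) where
  carrier := {g | (∀ x y, B (g x) (g y) = B x y) ∧ ∀ x, B x x < 0 → 0 < x 0 → 0 < (g x) 0}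
  one_mem' := ⟨fun _ _ => rfl, fun _ _ h => h⟩
  mul_mem' := by
    rintro g h ⟨hg1, hg2⟩ ⟨hh1, hh2⟩
    refine ⟨fun x y => ?_, fun x hx hx0 => ?_⟩
    · rw [LinearEquiv.mul_apply, LinearEquiv.mul_apply, hg1, hh1]
    · rw [LinearEquiv.mul_apply]
      exact hg2 _ (by rw [hh1]; exact hx) (hh2 _ hx hx0)
  inv_mem' := by
    rintro g ⟨hg1, hg2⟩
    have hgi : ∀ x, g (g⁻¹ x) = x := fun x => by
      rw [← LinearEquiv.mul_apply, mul_inv_cancel]; rfl
    have h1 : ∀ x y, B (g⁻¹ x) (g⁻¹ y) = B x y := fun x y => by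
      rw [← hg1 (g⁻¹ x) (g⁻¹ y), hgi, hgi]
    refine ⟨h1, fun x hx hx0 => ?_⟩
    by_contra hc
    have h2 : B (g⁻¹ x) (g⁻¹ x) < 0 := by rw [h1]; exact hx
    have h3 : (g⁻¹ x) 0 ≠ 0 := zero_ne_of_timelike h2
    have h4 := hg2 (-(g⁻¹ x)) (by rw [B_neg_left, B_neg_right]; linarith)
      (by simp only [Pi.neg_apply]; omega)
    rw [map_neg, hgi, Pi.neg_apply] at h4
    linarith

lemma W_B {g : V ≃ₗ[ℤ] V} (hg : g ∈ W) (x y : V) : B (g x) (g y) = B x y := hg.1 x y

lemma W_future {g : V ≃ₗ[ℤ] V} (hg : g ∈ W) {x : V} (hx : B x x < 0) (hx0 : 0 < x 0) :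
    0 < (g x) 0 := hg.2 x hx hx0

/-- Reflection in a vector of norm one. -/
def refl1 (v : V) (hv : B v v = 1) : V ≃ₗ[ℤ] V :=
  LinearEquiv.ofInvolutive
    { toFun := fun x => x - (2 * B v x) • v
      map_add' := fun x y => by
        rw [B_add_right]; module
      map_smul' := fun a x => by
        rw [B_smul_right, RingHom.id_apply]; module }
    (by
      intro x
      simp only [LinearMap.coe_mk, AddHom.coe_mk]
      rw [B_sub_right, B_smul_right, hv]; module)

lemma refl1_apply (v : V) (hv : B v v = 1) (x : V) : refl1 v hv x = x - (2 * B v x) • v := rfl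

/-- Reflection in a vector of norm two. -/
def refl2 (v : V) (hv : B v v = 2) : V ≃ₗ[ℤ] V :=
  LinearEquiv.ofInvolutive
    { toFun := fun x => x - (B v x) • v
      map_add' := fun x y => by
        rw [B_add_right]; module
      map_smul' := fun a x => by
        rw [B_smul_right, RingHom.id_apply]; module }
    (by
      intro x
      simp only [LinearMap.coe_mk, AddHom.coe_mk]
      rw [B_sub_right, B_smul_right, hv]; module)

lemma refl2_apply (v : V) (hv : B v v = 2) (x : V) : refl2 v hv x = x - (B v x) • v := rfl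

lemma refl1_mem (v : V) (hv : B v v = 1) : refl1 v hv ∈ W := by
  have h1 : ∀ x y, B (refl1 v hv x) (refl1 v hv y) = B x y := by
    intro x y
    rw [refl1_apply, refl1_apply, B_sub_left, B_sub_right, B_sub_right, B_smul_left, B_smul_left,
      B_smul_right, B_smul_right, hv, B_comm x v]
    ring
  refine ⟨h1, fun x hx hx0 => ?_⟩
  refine future_of_B_neg hx hx0 (by rw [h1]; exact hx) ?_
  rw [refl1_apply, B_sub_right, B_smul_right, B_comm x v]
  nlinarith [mul_self_nonneg (B v x)]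

lemma refl2_mem (v : V) (hv : B v v = 2) : refl2 v hv ∈ W := by
  have h1 : ∀ x y, B (refl2 v hv x) (refl2 v hv y) = B x y := by
    intro x y
    rw [refl2_apply, refl2_apply, B_sub_left, B_sub_right, B_sub_right, B_smul_left, B_smul_left,
      B_smul_right, B_smul_right, hv, B_comm x v]
    ring
  refine ⟨h1, fun x hx hx0 => ?_⟩
  refine future_of_B_neg hx hx0 (by rw [h1]; exact hx) ?_
  rw [refl2_apply, B_sub_right, B_smul_right, B_comm x v]
  nlinarith [mul_self_nonneg (B v x)]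

end Pool.Agent.Helper96.Hyp
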