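import Pool.Agent.Helper96.Hyp.Orbits

/-!
Cells of the cubical complex dual to the tessellation: a cell is determined by its centre.
-/

namespace Pool.Agent.Helper96.Hyp

/-- A set of pairwise adjacent wall types. -/
def Cq (C : Finset (Fin 27)) : Prop := ∀ F ∈ C, ∀ G ∈ C, F ≠ G → Adj F G

instance : DecidablePred Cq := fun C => by unfold Cq; infer_instance

lemma Cq.mono {C D : Finset (Fin 27)} (h : Cq D) (hCD : C ⊆ D) : Cq C :=
  fun F hF G hG hne => h F (hCD hF) G (hCD hG) hne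

lemma Cq.erase {C : Finset (Fin 27)} (h : Cq C) (F : Fin 27) : Cq (C.erase F) :=
  h.mono (Finset.erase_subset _ _)

/-- The centre of the cell of `y` in the directions `C`. -/
noncomputable def ctr (y : Ch) (C : Finset (Fin 27)) : V := y.1 + ∑ F ∈ C, nb y F

lemma ctr_smul (g : W) (y : Ch) (C : Finset (Fin 27)) :
    ctr (g • y) (C.map (pmHom g).toEmbedding) = g.1 (ctr y C) := by
  rw [ctr, ctr, map_add, map_sum, Finset.sum_map, smul_val]
  congr 1
  exact Finset.sum_congr rfl fun F _ => nb_smul g y F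

lemma Cq.map {C : Finset (Fin 27)} (h : Cq C) (g : W) : Cq (C.map (pmHom g).toEmbedding) := by
  intro F hF G hG hne
  obtain ⟨F', hF', rfl⟩ := Finset.mem_map.1 hF
  obtain ⟨G', hG', rfl⟩ := Finset.mem_map.1 hG
  exact (adj_pm g F' G').2 (h F' hF' G' hG' (fun e => hne (by rw [e])))

lemma ctr_flip {y : Ch} {C : Finset (Fin 27)} {F : Fin 27} (hC : Cq C) (hF : F ∈ C) :
    ctr (st F y) C = ctr y C := by
  rw [ctr, ctr, ← Finset.add_sum_erase C _ hF, ← Finset.add_sum_erase C (nb y) hF, nb_st_self,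
    st_val]
  have : ∑ G ∈ C.erase F, nb (st F y) G = ∑ G ∈ C.erase F, nb y G := by
    refine Finset.sum_congr rfl fun G hG => nb_st_adj ?_ y
    exact hC F hF G (Finset.mem_of_mem_erase hG) (Finset.ne_of_mem_erase hG).symm
  rw [this]; module

lemma ctr_insert {y : Ch} {C : Finset (Fin 27)} {F : Fin 27} (hF : F ∉ C) :
    ctr y (insert F C) = ctr y C + nb y F := by
  rw [ctr, ctr, Finset.sum_insert hF]; abel

lemma ctr_erase {y : Ch} {C : Finset (Fin 27)} {F : Fin 27} (hF : F ∈ C) :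
    ctr y (C.erase F) = ctr y C - nb y F := by
  rw [ctr, ctr, ← Finset.add_sum_erase C _ hF]; abel

lemma ctr_erase_flip {y : Ch} {C : Finset (Fin 27)} {F : Fin 27} (hC : Cq C) (hF : F ∈ C) :
    ctr (st F y) (C.erase F) = ctr y C + nb y F := by
  rw [ctr_erase hF, ctr_flip hC hF, nb_st_self]; abel

lemma B_sum_nb {y : Ch} {C : Finset (Fin 27)} (hC : Cq C) {F : Fin 27} (hF : F ∈ C) :
    ∑ G ∈ C, B (nb y G) (nb y F) = 1 := by
  rw [← Finset.add_sum_erase C _ hF, (nb_wall y F).1]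
  rw [Finset.sum_eq_zero, add_zero]
  intro G hG
  rw [B_nb]
  exact hC G (Finset.mem_of_mem_erase hG) F hF (Finset.ne_of_mem_erase hG)

lemma B_ctr_nb {y : Ch} {C : Finset (Fin 27)} (hC : Cq C) {F : Fin 27} (hF : F ∈ C) :
    B (ctr y C) (nb y F) = 0 := by
  rw [ctr, B_add_left, B_sum_left, B_sum_nb hC hF, (nb_wall y F).2]; norm_num

lemma B_ctr_self {y : Ch} {C : Finset (Fin 27)} (hC : Cq C) :
    B (ctr y C) (ctr y C) = -3 - C.card := by
  have h1 : B (ctr y C) (ctr y C) = B (ctr y C) y.1 + ∑ F ∈ C, B (ctr y C) (nb y F) := by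
    conv_lhs => rw [show B (ctr y C) (ctr y C) = B (ctr y C) (y.1 + ∑ F ∈ C, nb y F) from rfl]
    rw [B_add_right, B_sum_right]
  rw [h1, Finset.sum_eq_zero (fun F hF => B_ctr_nb hC hF), add_zero, ctr, B_add_left, y.2.2.1,
    B_sum_left]
  have : ∀ F ∈ C, B (nb y F) y.1 = -1 := fun F _ => by rw [B_comm]; exact (nb_wall y F).2
  rw [Finset.sum_congr rfl this]
  simp; ring

/-- The norm-one vectors orthogonal to `x`. -/
def IsR (x v : V) : Prop := B v v = 1 ∧ B x v = 0

lemma IsR.neg {x v : V} (h : IsR x v) : IsR x (-v) :=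
  ⟨by rw [B_neg_left, B_neg_right, h.1]; norm_num, by rw [B_neg_right, h.2]; norm_num⟩

lemma IsR.map {g : V ≃ₗ[ℤ] V} (hg : g ∈ W) {x v : V} (h : IsR x v) : IsR (g x) (g v) :=
  ⟨by rw [W_B hg]; exact h.1, by rw [W_B hg]; exact h.2⟩

/-- Two norm-one vectors orthogonal to a timelike vector are equal, opposite or orthogonal. -/
lemma isR_orth {x v w : V} (hx : B x x < 0) (hv : IsR x v) (hw : IsR x w) (h1 : v ≠ w)
    (h2 : v ≠ -w) : B v w = 0 := by
  have a1 : B (v - w) (v - w) = 2 - 2 * B v w := by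
    rw [B_sub_left, B_sub_right, B_sub_right, hv.1, hw.1, B_comm w v]; ring
  have a2 : B (v + w) (v + w) = 2 + 2 * B v w := by
    rw [B_add_left, B_add_right, B_add_right, hv.1, hw.1, B_comm w v]; ring
  have o1 : B (v - w) x = 0 := by rw [B_sub_left, B_comm v, B_comm w, hv.2, hw.2]; norm_num
  have o2 : B (v + w) x = 0 := by rw [B_add_left, B_comm v, B_comm w, hv.2, hw.2]; norm_num
  have p1 := B_nonneg_of_orth hx o1
  have p2 := B_nonneg_of_orth hx o2
  have q1 : B (v - w) (v - w) ≠ 0 := fun h => h1 (sub_eq_zero.1 (eq_zero_of_orth hx o1 h))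
  have q2 : B (v + w) (v + w) ≠ 0 := fun h => h2 (eq_neg_of_add_eq_zero_left
    (eq_zero_of_orth hx o2 h))
  rw [a1] at p1 q1
  rw [a2] at p2 q2
  omega

lemma isR_ctr {y : Ch} {C : Finset (Fin 27)} (hC : Cq C) {v : V} :
    IsR (ctr y C) v ↔ ∃ F ∈ C, v = nb y F ∨ v = -nb y F := by
  have hx : B (ctr y C) (ctr y C) < 0 := by rw [B_ctr_self hC]; omega
  have hnb : ∀ F ∈ C, IsR (ctr y C) (nb y F) := fun F hF => ⟨(nb_wall y F).1, B_ctr_nb hC hF⟩
  constructor
  · intro hv
    by_contra hcon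
    push Not at hcon
    have h1 : ∀ F ∈ C, B v (nb y F) = 0 := fun F hF =>
      isR_orth hx hv (hnb F hF) (hcon F hF).1 (hcon F hF).2
    have h2 : B y.1 v = 0 := by
      have h3 := hv.2
      rw [ctr, B_add_left, B_sum_left, Finset.sum_eq_zero, add_zero] at h3
      · exact h3
      · intro F hF; rw [B_comm]; exact h1 F hF
    have := odd_B y.2.1 hv.1
    rw [h2] at this
    norm_num at this
  · rintro ⟨F, hF, rfl | rfl⟩
    · exact hnb F hF
    · exact (hnb F hF).neg

lemma E2_neg (v : V) : E2 (-v) v := ⟨-v, by module⟩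

/-- The directions of a cell are determined by its centre. -/
lemma ctr_types {y y' : Ch} {C C' : Finset (Fin 27)} (hC : Cq C) (hC' : Cq C')
    (h : ctr y C = ctr y' C') : C = C' := by
  have key : ∀ {y y' : Ch} {C C' : Finset (Fin 27)}, Cq C → Cq C' → ctr y C = ctr y' C' →
      C ⊆ C' := by
    intro y y' C C' hC hC' h F hF
    have h1 : IsR (ctr y' C') (nb y F) := by
      rw [← h]; exact (isR_ctr hC).2 ⟨F, hF, Or.inl rfl⟩
    obtain ⟨G, hG, h2⟩ := (isR_ctr hC').1 h1
    have : E2 (line F) (line G) := by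
      rcases h2 with h2 | h2
      · exact (nb_E2 y F).symm.trans (by rw [h2]; exact nb_E2 y' G)
      · exact (nb_E2 y F).symm.trans (by rw [h2]; exact (E2_neg _).trans (nb_E2 y' G))
    rw [line_E2 this]; exact hG
  exact Finset.Subset.antisymm (key hC hC' h) (key hC' hC h.symm)

/-- Walls of two chambers of the same cell agree up to sign. -/
lemma ctr_walls {y y' : Ch} {C : Finset (Fin 27)} (hC : Cq C)
    (h : ctr y C = ctr y' C) {F : Fin 27} (hF : F ∈ C) : nb y' F = nb y F ∨ nb y' F = -nb y F := by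
  have h1 : IsR (ctr y C) (nb y' F) := by
    rw [h]; exact (isR_ctr hC).2 ⟨F, hF, Or.inl rfl⟩
  obtain ⟨G, hG, h2⟩ := (isR_ctr hC).1 h1
  have : E2 (line F) (line G) := by
    rcases h2 with h2 | h2
    · exact (nb_E2 y' F).symm.trans (by rw [h2]; exact nb_E2 y G)
    · exact (nb_E2 y' F).symm.trans (by rw [h2]; exact (E2_neg _).trans (nb_E2 y G))
  rw [line_E2 this] at h2 ⊢
  exact h2

/-- Crossing all the walls of a clique. -/
lemma exists_cross (y : Ch) {S : Finset (Fin 27)} (hS : Cq S) :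
    ∃ y' : Ch, y'.1 = y.1 + (2 : ℤ) • ∑ F ∈ S, nb y F ∧ phi y' = phi y + ∑ F ∈ S, lam F ∧
      ∀ G, (∀ F ∈ S, Adj F G) → nb y' G = nb y G := by
  classical
  induction S using Finset.induction_on with
  | empty => exact ⟨y, by simp, by simp, fun _ _ => rfl⟩
  | insert F S hF ih =>
    obtain ⟨y', h1, h2, h3⟩ := ih (hS.mono (Finset.subset_insert _ _))
    have hadj : ∀ G ∈ S, Adj G F := fun G hG =>
      hS G (Finset.mem_insert_of_mem hG) F (Finset.mem_insert_self _ _) (fun e => hF (e ▸ hG))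
    refine ⟨st F y', ?_, ?_, ?_⟩
    · rw [st_val, h3 F hadj, h1, Finset.sum_insert hF]; module
    · rw [phi_st, h2, Finset.sum_insert hF]; abel
    · intro G hG
      rw [nb_st_adj (hG F (Finset.mem_insert_self _ _)),
        h3 G fun F' hF' => hG F' (Finset.mem_insert_of_mem hF')]

/-- Two chambers of the same cell differ by crossing a subset of its walls. -/
lemma exists_subset {y y' : Ch} {C : Finset (Fin 27)} (hC : Cq C)
    (h : ctr y C = ctr y' C) : ∃ S ⊆ C, phi y' = phi y + ∑ F ∈ S, lam F ∧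
      (S = ∅ → y' = y) := by
  classical
  set S := C.filter fun F => nb y' F = -nb y F with hSdef
  have hSC : S ⊆ C := Finset.filter_subset _ _
  obtain ⟨y'', h1, h2, -⟩ := exists_cross y (hC.mono hSC)
  have hnb : ∀ F ∈ C, nb y F - nb y' F = if nb y' F = -nb y F then (2 : ℤ) • nb y F else 0 := by
    intro F hF
    split_ifs with hs
    · rw [hs]; module
    · rcases ctr_walls hC h hF with h3 | h3
      · rw [h3]; module
      · exact absurd h3 hs
  have hval : y'.1 = y.1 + (2 : ℤ) • ∑ F ∈ S, nb y F := by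
    have h4 : y'.1 = y.1 + ∑ F ∈ C, (nb y F - nb y' F) := by
      rw [Finset.sum_sub_distrib]
      have : y.1 + ∑ F ∈ C, nb y F = y'.1 + ∑ F ∈ C, nb y' F := h
      rw [← add_sub_assoc, this]; abel
    rw [h4, Finset.sum_congr rfl hnb, ← Finset.sum_filter, Finset.smul_sum]
  have hy : y'' = y' := Subtype.ext (by rw [h1, hval])
  subst hy
  refine ⟨S, hSC, h2, fun he => Subtype.ext ?_⟩
  rw [hval, he]; simp

/-! ### The group acts freely on cells -/

lemma rho4_two (a : U) : (rho^[4] a) 2 = a 2 := by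
  rw [rho_iter]
  have h : (R ^ 4) 2 = Pi.single 2 1 := by decide +kernel
  rw [Matrix.mulVec, h, single_one_dotProduct]

lemma T4_two (a : U) : (T^[4] a) 2 = a 2 + 1 := by
  rw [T_iter, Pi.add_apply, rho4_two]
  have : (T^[4] 0 : U) 2 = 1 := by decide +kernel
  rw [this]

lemma lam_two {F : Fin 27} (h : (hp ^ 4) F = F ∨ Adj F ((hp ^ 4) F)) : lam F 2 = 0 := by
  revert F; decide +kernel

/-- `Gam n` acts freely on cells, given that colours are independent on cliques. -/
lemma free_cell (hind : ∀ S : Finset (Fin 27), Cq S → ∑ F ∈ S, lam F = 0 → S = ∅)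
    {n : ℕ} {g : W} (hg : g ∈ Gam n) {y : Ch} {C : Finset (Fin 27)} (hC : Cq C)
    (hx : g.1 (ctr y C) = ctr y C) : g = 1 := by
  have main : ∀ g : W, g ∈ Gam n → g.1 (ctr y C) = ctr y C →
      C.map (pmHom g).toEmbedding = C ∧
      ∃ S ⊆ C, ∃ k : ℕ, pmHom g = hp ^ k ∧ T^[k] (phi y) = phi y + ∑ F ∈ S, lam F ∧
        (S = ∅ → g • y = y) := by
    intro g hg hx
    have h1 : ctr y C = ctr (g • y) (C.map (pmHom g).toEmbedding) := by rw [ctr_smul, hx]
    have h2 := ctr_types hC (hC.map g) h1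
    rw [← h2] at h1
    obtain ⟨S, hS, h3, h4⟩ := exists_subset hC h1
    obtain ⟨⟨k, hk, h5⟩, -⟩ := rel_of_smul (y := y) hg
    exact ⟨h2.symm, S, hS, k, hk, by rw [← h5, h3], h4⟩
  obtain ⟨-, S, hSC, k, hk, hT, hS⟩ := main g hg hx
  by_cases h8 : 8 ∣ k
  · obtain ⟨m, rfl⟩ := h8
    rw [T_mul8] at hT
    have h0 : ∑ F ∈ S, lam F = 0 := by
      have := hT.symm
      rwa [add_eq_left] at this
    exact free_Ch hg (hS (hind S (hC.mono hSC) h0))
  · exfalso
    obtain ⟨m, hm⟩ : ∃ m : ℕ, (k * m) % 8 = 4 := by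
      have : k % 8 < 8 := Nat.mod_lt _ (by norm_num)
      have h0 : k % 8 ≠ 0 := fun h => h8 (Nat.dvd_of_mod_eq_zero h)
      have key : ∀ r : Fin 8, r.1 ≠ 0 → ∃ m : Fin 8, (r.1 * m.1) % 8 = 4 := by decide
      obtain ⟨m, hm⟩ := key ⟨k % 8, this⟩ h0
      exact ⟨m.1, by rw [Nat.mul_mod]; simpa [Nat.mul_mod] using hm⟩
    have hgm : (g ^ m).1 (ctr y C) = ctr y C := by
      clear hm
      induction m with
      | zero => rfl
      | succ m ih =>
        rw [pow_succ]
        show (g ^ m).1 (g.1 (ctr y C)) = _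
        rw [hx, ih]
    obtain ⟨hC4, S', hSC', k', hk', hT', -⟩ := main (g ^ m) ((Gam n).pow_mem hg m) hgm
    have hpk : hp ^ k' = hp ^ 4 := by
      rw [← hk', map_pow, hk, ← pow_mul, ← Nat.mod_add_div (k * m) 8, hm, pow_add, pow_mul, hp8]
      simp
    have hk4 : k' % 8 = 4 := by
      have h1 : hp ^ (k' % 8) = hp ^ 4 := by
        rw [← hpk]
        conv_rhs => rw [← Nat.mod_add_div k' 8, pow_add, pow_mul, hp8]
        simp
      have key : ∀ r : Fin 8, hp ^ r.1 = hp ^ 4 → r.1 = 4 := by decide +kernel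
      exact key ⟨k' % 8, Nat.mod_lt _ (by norm_num)⟩ h1
    rw [T_mod8, hk4] at hT'
    have h2 := congrFun hT' 2
    rw [T4_two, Pi.add_apply, Finset.sum_apply, Finset.sum_eq_zero] at h2
    · rw [add_zero, add_eq_left] at h2
      exact one_ne_zero h2
    · intro F hF
      apply lam_two
      have hFC := hSC' hF
      have : (hp ^ 4) F ∈ C := by
        rw [← hpk, ← hk']
        have h' : pmHom (g ^ m) F ∈ C.map (pmHom (g ^ m)).toEmbedding :=
          Finset.mem_map_of_mem (pmHom (g ^ m)).toEmbedding hFC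
        rwa [hC4] at h'
      by_cases he : (hp ^ 4) F = F
      · exact Or.inl he
      · exact Or.inr (hC F hFC _ this (fun e => he e.symm))

end Pool.Agent.Helper96.Hyp
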