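import Pool.Agent.Helper96.Hyp.Descent

/-!
Types of walls, adjacency of chambers, and the recursion principle on chambers.
-/

namespace Pool.Agent.Helper96.Hyp

lemma mul_inv_app (g : V ≃ₗ[ℤ] V) (x : V) : g (g⁻¹ x) = x := by
  rw [← LinearEquiv.mul_apply, mul_inv_cancel]; rfl

lemma inv_mul_app (g : V ≃ₗ[ℤ] V) (x : V) : g⁻¹ (g x) = x := by
  rw [← LinearEquiv.mul_apply, inv_mul_cancel]; rfl

/-- Congruence modulo two. -/
def E2 (x y : V) : Prop := ∃ z : V, x = y + (2 : ℤ) • z

lemma E2.refl (x : V) : E2 x x := ⟨0, by simp⟩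
lemma E2.symm {x y : V} (h : E2 x y) : E2 y x := by
  obtain ⟨z, rfl⟩ := h; exact ⟨-z, by module⟩
lemma E2.trans {x y z : V} (h : E2 x y) (h' : E2 y z) : E2 x z := by
  obtain ⟨a, rfl⟩ := h; obtain ⟨b, rfl⟩ := h'; exact ⟨a + b, by module⟩
lemma E2.map (g : V ≃ₗ[ℤ] V) {x y : V} (h : E2 x y) : E2 (g x) (g y) := by
  obtain ⟨z, rfl⟩ := h; exact ⟨g z, by rw [map_add, map_smul]⟩

lemma line_E2 {F G : Fin 27} (h : E2 (line F) (line G)) : F = G := by
  obtain ⟨z, hz⟩ := h
  refine line_mod F G fun i => ?_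
  rw [hz]; simp

/-- Elements acting trivially modulo two. -/
def Triv (g : V ≃ₗ[ℤ] V) : Prop := ∀ x, E2 (g x) x

lemma Triv.mul {g h : V ≃ₗ[ℤ] V} (hg : Triv g) (hh : Triv h) : Triv (g * h) := fun x => by
  rw [LinearEquiv.mul_apply]; exact (hg _).trans (hh x)

lemma Triv.inv {g : V ≃ₗ[ℤ] V} (hg : Triv g) : Triv g⁻¹ := fun x => by
  have := hg (g⁻¹ x)
  rw [mul_inv_app] at this
  exact this.symm

lemma triv_one : Triv 1 := fun x => E2.refl x

lemma triv_refl1 (v : V) (hv : B v v = 1) : Triv (refl1 v hv) := fun x =>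
  ⟨-(B v x) • v, by rw [refl1_apply]; module⟩

/-- The height of a chamber. -/
def ht (y : V) : ℕ := (-B y c0).toNat

lemma ht_pos {y : V} (hy : IsCh y) : B y c0 < 0 :=
  B_neg_of_future (by rw [hy.2.1]; norm_num) hy.2.2 (by rw [isCh_c0.2.1]; norm_num) isCh_c0.2.2

lemma wall_refl {y v : V} (hv : IsWall y v) : refl1 v hv.1 y = y + (2 : ℤ) • v := by
  rw [refl1_apply, B_comm, hv.2]; module

lemma isCh_step {y v : V} (hy : IsCh y) (hv : IsWall y v) : IsCh (y + (2 : ℤ) • v) := by
  rw [← wall_refl hv]; exact isCh_map (refl1_mem _ _) hy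

lemma isWall_step {y v : V} (hv : IsWall y v) : IsWall (y + (2 : ℤ) • v) (-v) := by
  refine ⟨by rw [B_neg_left, B_neg_right, hv.1]; norm_num, ?_⟩
  rw [B_neg_right, B_add_left, B_smul_left, hv.1, hv.2]; norm_num

lemma ht_step {y v : V} (hy : IsCh y) (hv : IsWall y v) (h : 0 < B v c0) :
    ht (y + (2 : ℤ) • v) < ht y := by
  have h1 := ht_pos hy
  have h2 := ht_pos (isCh_step hy hv)
  have h3 : B (y + (2 : ℤ) • v) c0 = B y c0 + 2 * B v c0 := by rw [B_add_left, B_smul_left]
  unfold ht
  omega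

lemma exists_triv_aux : ∀ (n : ℕ) (y : V), IsCh y → ht y ≤ n →
    ∃ g ∈ W, Triv g ∧ g c0 = y := by
  intro n
  induction n with
  | zero =>
    intro y hy hn
    have := ht_pos hy
    unfold ht at hn; omega
  | succ n ih =>
    intro y hy hn
    by_cases hc : y = c0
    · exact ⟨1, W.one_mem, triv_one, hc.symm⟩
    · obtain ⟨v, hv, hvc⟩ := exists_descent hy hc
      have h1 := ht_step hy hv hvc
      obtain ⟨g, hg, hgt, hgy⟩ := ih _ (isCh_step hy hv) (by omega)
      refine ⟨refl1 v hv.1 * g, W.mul_mem (refl1_mem _ _) hg, (triv_refl1 _ _).mul hgt, ?_⟩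
      rw [LinearEquiv.mul_apply, hgy, ← wall_refl hv]
      exact (refl1 v hv.1).left_inv y

lemma exists_triv {y : V} (hy : IsCh y) : ∃ g ∈ W, Triv g ∧ g c0 = y :=
  exists_triv_aux _ y hy le_rfl

lemma ext_of_lines {g h : V ≃ₗ[ℤ] V} (H : ∀ F, g (line F) = h (line F)) : g = h := by
  apply LinearEquiv.toLinearMap_injective
  apply (Pi.basisFun ℤ (Fin 7)).ext
  intro i
  simp only [Pi.basisFun_apply, LinearEquiv.coe_coe]
  have e1 : (Pi.single 1 1 : V) = -line 0 := by decide
  have e2 : (Pi.single 2 1 : V) = -line 1 := by decide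
  have e3 : (Pi.single 3 1 : V) = -line 2 := by decide
  have e4 : (Pi.single 4 1 : V) = -line 3 := by decide
  have e5 : (Pi.single 5 1 : V) = -line 4 := by decide
  have e6 : (Pi.single 6 1 : V) = -line 5 := by decide
  have e0 : (Pi.single 0 1 : V) = line 12 + line 0 + line 1 := by decide
  fin_cases i
  · simp only [Fin.zero_eta]
    rw [e0, map_add, map_add, map_add, map_add, H, H, H]
  · simp only [Fin.mk_one]; rw [e1, map_neg, map_neg, H]
  · simp only [Fin.reduceFinMk]; rw [e2, map_neg, map_neg, H]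
  · simp only [Fin.reduceFinMk]; rw [e3, map_neg, map_neg, H]
  · simp only [Fin.reduceFinMk]; rw [e4, map_neg, map_neg, H]
  · simp only [Fin.reduceFinMk]; rw [e5, map_neg, map_neg, H]
  · simp only [Fin.reduceFinMk]; rw [e6, map_neg, map_neg, H]

lemma triv_fix {g : V ≃ₗ[ℤ] V} (hg : g ∈ W) (ht : Triv g) (h : g c0 = c0) : g = 1 := by
  apply ext_of_lines
  intro F
  have h1 := isWall_map hg (isWall_line F)
  rw [h] at h1
  obtain ⟨G, hG⟩ := wall_c0 h1
  have h2 : E2 (line G) (line F) := by rw [← hG]; exact ht _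
  rw [hG, line_E2 h2]; rfl

/-- The type of chambers. -/
def Ch := {y : V // IsCh y}

/-- The element of `W`, trivial modulo two, carrying the base chamber to `y`. -/
noncomputable def wy (y : Ch) : V ≃ₗ[ℤ] V := (exists_triv y.2).choose

lemma wy_mem (y : Ch) : wy y ∈ W := (exists_triv y.2).choose_spec.1
lemma wy_triv (y : Ch) : Triv (wy y) := (exists_triv y.2).choose_spec.2.1
lemma wy_c0 (y : Ch) : wy y c0 = y.1 := (exists_triv y.2).choose_spec.2.2

/-- The wall of type `F` of the chamber `y`. -/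
noncomputable def nb (y : Ch) (F : Fin 27) : V := wy y (line F)

lemma nb_wall (y : Ch) (F : Fin 27) : IsWall y.1 (nb y F) := by
  rw [← wy_c0 y]; exact isWall_map (wy_mem y) (isWall_line F)

lemma nb_E2 (y : Ch) (F : Fin 27) : E2 (nb y F) (line F) := wy_triv y _

lemma B_nb (y : Ch) (F G : Fin 27) : B (nb y F) (nb y G) = B (line F) (line G) :=
  W_B (wy_mem y) _ _

lemma exists_nb {y : Ch} {v : V} (hv : IsWall y.1 v) : ∃ F, v = nb y F := by
  have h1 : IsWall c0 ((wy y)⁻¹ v) := by
    have := isWall_map (W.inv_mem (wy_mem y)) hv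
    rwa [← wy_c0 y, inv_mul_app] at this
  obtain ⟨F, hF⟩ := wall_c0 h1
  exact ⟨F, by rw [nb, ← hF, mul_inv_app]⟩

lemma nb_unique {y : Ch} {v : V} {F : Fin 27} (hv : IsWall y.1 v) (h : E2 v (line F)) :
    v = nb y F := by
  obtain ⟨G, rfl⟩ := exists_nb hv
  rw [line_E2 ((nb_E2 y G).symm.trans h)]

lemma nb_injective (y : Ch) : Function.Injective (nb y) := by
  intro F G h
  exact line_injective ((wy y).injective h)

/-- Adjacency of wall types. -/
def Adj (F G : Fin 27) : Prop := B (line F) (line G) = 0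

instance : DecidableRel Adj := fun F G => by unfold Adj; infer_instance

lemma Adj.symm {F G : Fin 27} (h : Adj F G) : Adj G F := by
  unfold Adj at *; rw [B_comm]; exact h

lemma Adj.ne {F G : Fin 27} (h : Adj F G) : F ≠ G := by
  rintro rfl
  unfold Adj at h
  rw [B_line_self] at h; norm_num at h

/-- The neighbouring chamber across the wall of type `F`. -/
noncomputable def st (F : Fin 27) (y : Ch) : Ch :=
  ⟨y.1 + (2 : ℤ) • nb y F, isCh_step y.2 (nb_wall y F)⟩

lemma st_val (F : Fin 27) (y : Ch) : (st F y).1 = y.1 + (2 : ℤ) • nb y F := rfl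

lemma nb_st (F G : Fin 27) (y : Ch) :
    nb (st F y) G = nb y G - (2 * B (nb y F) (nb y G)) • nb y F := by
  symm
  apply nb_unique
  · have h1 := isWall_map (refl1_mem (nb y F) (nb_wall y F).1) (nb_wall y G)
    rw [wall_refl (nb_wall y F), refl1_apply] at h1
    exact h1
  · exact (triv_refl1 (nb y F) (nb_wall y F).1 _).trans (nb_E2 y G)

lemma nb_st_self (F : Fin 27) (y : Ch) : nb (st F y) F = -nb y F := by
  rw [nb_st, (nb_wall y F).1]; module

lemma nb_st_adj {F G : Fin 27} (h : Adj F G) (y : Ch) : nb (st F y) G = nb y G := by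
  rw [nb_st, B_nb, h]; simp

lemma st_st (F : Fin 27) (y : Ch) : st F (st F y) = y := by
  apply Subtype.ext
  rw [st_val, nb_st_self, st_val]; module

lemma st_comm {F G : Fin 27} (h : Adj F G) (y : Ch) : st F (st G y) = st G (st F y) := by
  apply Subtype.ext
  rw [st_val, nb_st_adj h.symm, st_val, st_val, nb_st_adj h, st_val]; module

/-- The wall of type `F` separates `y` from the base chamber. -/
def Desc (y : Ch) (F : Fin 27) : Prop := 0 < B (nb y F) c0

lemma B_nb_odd (y : Ch) (F : Fin 27) : B (nb y F) c0 % 2 = 1 := by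
  rw [B_comm]; exact odd_B isCh_c0.1 (nb_wall y F).1

lemma desc_adj {y : Ch} {F G : Fin 27} (hF : Desc y F) (hG : Desc y G) (hne : F ≠ G) :
    Adj F G := by
  rcases B_line_line F G hne with h | h
  · exact h
  · exfalso
    -- `nb F + nb G` is a null vector in the future cone
    set n := nb y F + nb y G with hn
    have h0 : B n n = 0 := by
      rw [hn, B_add_left, B_add_right, B_add_right, (nb_wall y F).1, (nb_wall y G).1,
        B_comm (nb y G), B_nb, h]; norm_num
    have h1 : B y.1 n = -2 := by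
      rw [hn, B_add_right, (nb_wall y F).2, (nb_wall y G).2]; norm_num
    have h2 : 0 < B n c0 := by
      rw [hn, B_add_left]; exact add_pos hF hG
    have hy : B y.1 y.1 < 0 := by rw [y.2.2.1]; norm_num
    have hc : B c0 c0 < 0 := by rw [isCh_c0.2.1]; norm_num
    rcases lt_trichotomy (n 0) 0 with h3 | h3 | h3
    · have := B_neg_of_future hy y.2.2.2 (y := -n)
        (by rw [B_neg_left, B_neg_right, h0]; norm_num) (by simp only [Pi.neg_apply]; omega)
      rw [B_neg_right, h1] at this
      norm_num at this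
    · have hS : S n n = 0 := by
        rw [B, h3] at h0; linarith
      have := S_cs y.1 n
      rw [hS, mul_zero] at this
      have h4 : S y.1 n = 0 := by
        have := sq_nonneg (S y.1 n); nlinarith
      rw [B, h3, h4] at h1
      norm_num at h1
    · have := B_neg_of_future hc isCh_c0.2.2 (y := n) h0.le h3
      rw [B_comm] at this
      linarith

lemma desc_st_self {y : Ch} {F : Fin 27} : Desc (st F y) F ↔ ¬ Desc y F := by
  unfold Desc
  rw [nb_st_self, B_neg_left]
  have := B_nb_odd y F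
  omega

lemma desc_st_adj {y : Ch} {F G : Fin 27} (h : Adj F G) : Desc (st F y) G ↔ Desc y G := by
  unfold Desc
  rw [nb_st_adj h]

/-- The height of a chamber as a natural number. -/
def htc (y : Ch) : ℕ := ht y.1

lemma htc_st {y : Ch} {F : Fin 27} (h : Desc y F) : htc (st F y) < htc y :=
  ht_step y.2 (nb_wall y F) h

/-- The base chamber. -/
def cc : Ch := ⟨c0, isCh_c0⟩

lemma exists_desc {y : Ch} (hy : y ≠ cc) : ∃ F, Desc y F := by
  obtain ⟨v, hv, hvc⟩ := exists_descent y.2 (fun h => hy (Subtype.ext h))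
  obtain ⟨F, rfl⟩ := exists_nb hv
  exact ⟨F, hvc⟩

lemma nb_cc (F : Fin 27) : nb cc F = line F :=
  (nb_unique (isWall_line F) (E2.refl _)).symm

lemma not_desc_cc (F : Fin 27) : ¬ Desc cc F := by
  unfold Desc
  rw [nb_cc, B_comm, (isWall_line F).2]; norm_num

open Classical in
/-- The function on chambers defined by local rules. -/
noncomputable def rec1 {A : Type*} (a : Fin 27 → A → A) (x0 : A) (y : Ch) : A :=
  if h : y = cc then x0 else
    have := htc_st (exists_desc h).choose_spec
    a (exists_desc h).choose (rec1 a x0 (st (exists_desc h).choose y))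
termination_by htc y

lemma rec1_cc {A : Type*} (a : Fin 27 → A → A) (x0 : A) : rec1 a x0 cc = x0 := by
  rw [rec1, dif_pos rfl]

lemma rec1_desc {A : Type*} (a : Fin 27 → A → A) (x0 : A)
    (hc : ∀ F G, Adj F G → ∀ x, a F (a G x) = a G (a F x)) :
    ∀ (n : ℕ) (y : Ch), htc y ≤ n → ∀ G, Desc y G → rec1 a x0 y = a G (rec1 a x0 (st G y)) := by
  intro n
  induction n with
  | zero =>
    intro y hy G hG
    have := htc_st hG
    omega
  | succ n ih =>
    intro y hy G hG
    have hne : y ≠ cc := by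
      rintro rfl; exact not_desc_cc G hG
    rw [rec1, dif_neg hne]
    set F := (exists_desc hne).choose with hF
    have hFd : Desc y F := (exists_desc hne).choose_spec
    show a F (rec1 a x0 (st F y)) = _
    by_cases hFG : F = G
    · rw [hFG]
    · have hadj := desc_adj hFd hG hFG
      have h1 := htc_st hFd
      have h2 := htc_st hG
      rw [ih (st F y) (by omega) G ((desc_st_adj hadj).2 hG),
        ih (st G y) (by omega) F ((desc_st_adj hadj.symm).2 hFd), hc F G hadj, st_comm hadj]

/-- The local rule holds for every wall. -/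
lemma rec1_st {A : Type*} (a : Fin 27 → A → A) (x0 : A)
    (hc : ∀ F G, Adj F G → ∀ x, a F (a G x) = a G (a F x)) (hi : ∀ F x, a F (a F x) = x)
    (y : Ch) (G : Fin 27) : rec1 a x0 (st G y) = a G (rec1 a x0 y) := by
  by_cases h : Desc y G
  · rw [rec1_desc a x0 hc _ y le_rfl G h, hi]
  · rw [rec1_desc a x0 hc _ (st G y) le_rfl G (desc_st_self.2 h), st_st]

/-- Induction along walls. -/
lemma ch_induction {P : Ch → Prop} (h0 : P cc) (hs : ∀ y F, P y → P (st F y)) (y : Ch) : P y := by
  have key : ∀ (n : ℕ) (y : Ch), htc y ≤ n → P y := by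
    intro n
    induction n with
    | zero =>
      intro y hy
      by_cases hc : y = cc
      · rw [hc]; exact h0
      · obtain ⟨F, hF⟩ := exists_desc hc
        have := htc_st hF
        omega
    | succ n ih =>
      intro y hy
      by_cases hc : y = cc
      · rw [hc]; exact h0
      · obtain ⟨F, hF⟩ := exists_desc hc
        have h1 := htc_st hF
        have := hs _ F (ih (st F y) (by omega))
        rwa [st_st] at this
  exact key _ y le_rfl

end Pool.Agent.Helper96.Hyp
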