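import Pool.Agent.Helper96.Hyp.Walls

/-!
Descent: the integral Lorentz group acts transitively on chambers.
-/

namespace Pool.Agent.Helper96.Hyp

lemma S_eq_sum (x y : V) : S x y = ∑ i : Fin 6, x i.succ * y i.succ := by
  rw [Fin.sum_univ_six]; rfl

/-- The norm-two root `e₀ + eᵢ + eⱼ + eₖ`. -/
def rt (i j k : Fin 6) : V := Fin.cons 1 fun l => if l = i ∨ l = j ∨ l = k then 1 else 0

lemma B_rt {i j k : Fin 6} (hij : i ≠ j) (hik : i ≠ k) (hjk : j ≠ k) (y : V) :
    B (rt i j k) y = -(y 0) + (y i.succ + y j.succ + y k.succ) := by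
  have h : S (rt i j k) y = y i.succ + y j.succ + y k.succ := by
    rw [S_eq_sum]
    simp only [rt, Fin.cons_succ, ite_mul, one_mul, zero_mul]
    rw [← Finset.sum_filter]
    have : (Finset.univ.filter fun l : Fin 6 => l = i ∨ l = j ∨ l = k) = {i, j, k} := by
      ext l; simp
    rw [this, Finset.sum_insert (by simp [hij, hik]), Finset.sum_insert (by simp [hjk]),
      Finset.sum_singleton]
    ring
  rw [B, h]
  simp [rt]

lemma B_rt_self {i j k : Fin 6} (hij : i ≠ j) (hik : i ≠ k) (hjk : j ≠ k) :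
    B (rt i j k) (rt i j k) = 2 := by
  rw [B_rt hij hik hjk]
  simp [rt]

lemma B_rt_c0 {i j k : Fin 6} (hij : i ≠ j) (hik : i ≠ k) (hjk : j ≠ k) :
    B (rt i j k) c0 = 0 := by
  rw [B_rt hij hik hjk]
  have h : ∀ l : Fin 6, c0 l.succ = 1 := by decide
  rw [h, h, h]; decide

lemma sorted_aux {t a b c d e f : ℤ} (ha : 1 ≤ a) (hab : a ≤ b) (hbc : b ≤ c) (hcd : c ≤ d)
    (hde : d ≤ e) (hef : e ≤ f) (hn : t * t = 3 + (a * a + b * b + c * c + d * d + e * e + f * f))
    (ht : d + e + f ≤ t) : f = 1 := by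
  have h1 : (d + e + f) * (d + e + f) ≤ t * t := by nlinarith
  have h2 : a * a ≤ d * d := by nlinarith
  have h3 : b * b ≤ d * d := by nlinarith
  have h4 : c * c ≤ d * d := by nlinarith
  have h5 : d * d ≤ d * e := by nlinarith
  have h6 : d * d ≤ d * f := by nlinarith
  have h7 : 1 ≤ d * d := by nlinarith
  have h8 : e * f ≤ 1 := by nlinarith
  nlinarith

/-- A chamber with positive coordinates is the base chamber or can be reflected down. -/
lemma base_or_root {y : V} (hy : IsCh y) (hp : ∀ l : Fin 6, 1 ≤ y l.succ) :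
    y = c0 ∨ ∃ i j k : Fin 6, i ≠ j ∧ i ≠ k ∧ j ≠ k ∧ 0 < B (rt i j k) y := by
  classical
  set f : Fin 6 → ℤ := fun l => y l.succ with hf
  set σ := Tuple.sort f
  have hmono : Monotone (f ∘ σ) := Tuple.monotone_sort f
  by_cases hB : 0 < B (rt (σ 3) (σ 4) (σ 5)) y
  · exact Or.inr ⟨σ 3, σ 4, σ 5, by simp, by simp, by simp, hB⟩
  · left
    rw [B_rt (by simp) (by simp) (by simp)] at hB
    have hn : y 0 * y 0 = 3 + ∑ l : Fin 6, f l * f l := by
      have := hy.2.1
      rw [B, S_eq_sum] at this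
      simp only [hf]; linarith
    rw [← Equiv.sum_comp σ, Fin.sum_univ_six] at hn
    have h5 : f (σ 5) = 1 := by
      refine sorted_aux (t := y 0) (a := f (σ 0)) (b := f (σ 1)) (c := f (σ 2)) (d := f (σ 3))
        (e := f (σ 4)) (f := f (σ 5)) (hp _) ?_ ?_ ?_ ?_ ?_ ?_ ?_
      · exact hmono (by decide : (0 : Fin 6) ≤ 1)
      · exact hmono (by decide : (1 : Fin 6) ≤ 2)
      · exact hmono (by decide : (2 : Fin 6) ≤ 3)
      · exact hmono (by decide : (3 : Fin 6) ≤ 4)
      · exact hmono (by decide : (4 : Fin 6) ≤ 5)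
      · linarith
      · simp only [hf]; linarith
    have hall : ∀ l, f l = 1 := by
      intro l
      have h1 : (f ∘ σ) (σ.symm l) ≤ (f ∘ σ) 5 := hmono (Fin.le_last _)
      simp only [Function.comp_apply, Equiv.apply_symm_apply] at h1
      exact le_antisymm (h1.trans h5.le) (hp l)
    have h0 : y 0 = 3 := by
      have := hy.2.2
      simp only [hall] at hn
      nlinarith
    funext i
    refine Fin.cases ?_ (fun l => ?_) i
    · rw [h0]; rfl
    · have := hall l
      simp only [hf] at this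
      rw [this]
      clear this
      fin_cases l <;> rfl

/-- Changing the signs of the spatial coordinates. -/
def flip (s : Fin 7 → ℤˣ) : V ≃ₗ[ℤ] V where
  toFun x := fun i => (s i : ℤ) * x i
  invFun x := fun i => (s i : ℤ) * x i
  map_add' x y := by funext i; simp [mul_add]
  map_smul' a x := by funext i; simp; ring
  left_inv x := by
    funext i
    have : (s i : ℤ) * (s i : ℤ) = 1 := by
      rcases Int.units_eq_one_or (s i) with h | h <;> rw [h] <;> rfl
    simp only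
    rw [← mul_assoc, this, one_mul]
  right_inv x := by
    funext i
    have : (s i : ℤ) * (s i : ℤ) = 1 := by
      rcases Int.units_eq_one_or (s i) with h | h <;> rw [h] <;> rfl
    simp only
    rw [← mul_assoc, this, one_mul]

lemma flip_apply (s : Fin 7 → ℤˣ) (x : V) (i : Fin 7) : flip s x i = (s i : ℤ) * x i := rfl

lemma flip_mem (s : Fin 7 → ℤˣ) (h0 : s 0 = 1) : flip s ∈ W := by
  refine ⟨fun x y => ?_, fun x _ hx0 => ?_⟩
  · have : ∀ i, (s i : ℤ) * (s i : ℤ) = 1 := by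
      intro i
      rcases Int.units_eq_one_or (s i) with h | h <;> rw [h] <;> rfl
    have h' : ∀ i, (s i : ℤ) * x i * ((s i : ℤ) * y i) = x i * y i := by
      intro i
      calc (s i : ℤ) * x i * ((s i : ℤ) * y i) = ((s i : ℤ) * (s i : ℤ)) * (x i * y i) := by ring
        _ = x i * y i := by rw [this, one_mul]
    simp only [B, S, flip_apply, h']
  · rw [flip_apply, h0]; simpa using hx0

lemma isCh_of_mem {g : V ≃ₗ[ℤ] V} (hg : g ∈ W) {y : V} (hy : B y y = -3) (hy0 : 0 < y 0) :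
    B (g y) (g y) = -3 ∧ 0 < (g y) 0 :=
  ⟨by rw [W_B hg]; exact hy, W_future hg (by linarith) hy0⟩

/-- All elements of `W` preserve the set of all-odd vectors. -/
lemma odd_of_mem {g : V ≃ₗ[ℤ] V} (hg : g ∈ W) {y : V} (hy : ∀ i, y i % 2 = 1) :
    ∀ i, (g y) i % 2 = 1 := by
  -- all-odd vectors are the characteristic vectors
  have key : ∀ z : V, (∀ i, z i % 2 = 1) ↔ ∀ x : V, (B z x - B x x) % 2 = 0 := by
    intro z
    constructor
    · intro h x
      obtain ⟨a0, h0⟩ : ∃ a, z 0 = 2 * a + 1 := ⟨z 0 / 2, by have := h 0; omega⟩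
      obtain ⟨a1, h1⟩ : ∃ a, z 1 = 2 * a + 1 := ⟨z 1 / 2, by have := h 1; omega⟩
      obtain ⟨a2, h2⟩ : ∃ a, z 2 = 2 * a + 1 := ⟨z 2 / 2, by have := h 2; omega⟩
      obtain ⟨a3, h3⟩ : ∃ a, z 3 = 2 * a + 1 := ⟨z 3 / 2, by have := h 3; omega⟩
      obtain ⟨a4, h4⟩ : ∃ a, z 4 = 2 * a + 1 := ⟨z 4 / 2, by have := h 4; omega⟩
      obtain ⟨a5, h5⟩ : ∃ a, z 5 = 2 * a + 1 := ⟨z 5 / 2, by have := h 5; omega⟩
      obtain ⟨a6, h6⟩ : ∃ a, z 6 = 2 * a + 1 := ⟨z 6 / 2, by have := h 6; omega⟩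
      have par : ∀ a : ℤ, ∃ b, a * a - a = 2 * b := by
        intro a
        rcases Int.even_or_odd' a with ⟨b, hb | hb⟩
        · exact ⟨2 * b * b - b, by rw [hb]; ring⟩
        · exact ⟨(2 * b + 1) * b, by rw [hb]; ring⟩
      obtain ⟨b0, g0⟩ := par (x 0)
      obtain ⟨b1, g1⟩ := par (x 1)
      obtain ⟨b2, g2⟩ := par (x 2)
      obtain ⟨b3, g3⟩ := par (x 3)
      obtain ⟨b4, g4⟩ := par (x 4)
      obtain ⟨b5, g5⟩ := par (x 5)
      obtain ⟨b6, g6⟩ := par (x 6)
      have : B z x - B x x = 2 * (-(a0 * x 0) + a1 * x 1 + a2 * x 2 + a3 * x 3 + a4 * x 4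
          + a5 * x 5 + a6 * x 6 + b0 - b1 - b2 - b3 - b4 - b5 - b6) := by
        simp only [B, S, h0, h1, h2, h3, h4, h5, h6]
        linear_combination -(g1 + g2 + g3 + g4 + g5 + g6) + g0
      rw [this]; simp
    · intro h i
      have h' := h (Pi.single i 1)
      fin_cases i <;> simp [B, S] at h' ⊢ <;> omega
  rw [key] at hy ⊢
  intro x
  have h1 := hy (g⁻¹ x)
  have hgi : ∀ x, g (g⁻¹ x) = x := fun x => by
    rw [← LinearEquiv.mul_apply, mul_inv_cancel]; rfl
  rw [← W_B hg y (g⁻¹ x), ← W_B hg (g⁻¹ x) (g⁻¹ x), hgi] at h1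
  exact h1

lemma isCh_map {g : V ≃ₗ[ℤ] V} (hg : g ∈ W) {y : V} (hy : IsCh y) : IsCh (g y) :=
  ⟨odd_of_mem hg hy.1, (isCh_of_mem hg hy.2.1 hy.2.2).1, (isCh_of_mem hg hy.2.1 hy.2.2).2⟩

lemma isWall_map {g : V ≃ₗ[ℤ] V} (hg : g ∈ W) {y v : V} (hv : IsWall y v) :
    IsWall (g y) (g v) := ⟨by rw [W_B hg]; exact hv.1, by rw [W_B hg]; exact hv.2⟩

/-- The signs of the coordinates. -/
lemma exists_flip {y : V} (hy : IsCh y) :
    ∃ s : Fin 7 → ℤˣ, s 0 = 1 ∧ ∀ l : Fin 6, 1 ≤ (flip s y) l.succ := by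
  classical
  refine ⟨fun i => if 0 < y i then 1 else -1, by simp [hy.2.2], fun l => ?_⟩
  have h1 := hy.1 l.succ
  rw [flip_apply]
  split_ifs with h
  · simp only [Units.val_one, one_mul]; omega
  · simp only [Units.val_neg, Units.val_one, neg_mul, one_mul]; omega

lemma exists_mem_c0 : ∀ (n : ℕ) (y : V), IsCh y → (y 0).toNat ≤ n → ∃ g ∈ W, g c0 = y := by
  intro n
  induction n with
  | zero =>
    intro y hy hn
    have := hy.2.2
    omega
  | succ n ih =>
    intro y hy hn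
    obtain ⟨s, hs0, hs⟩ := exists_flip hy
    have hf := flip_mem s hs0
    have hy' := isCh_map hf hy
    have hff : ∀ x, flip s (flip s x) = x := (flip s).left_inv
    rcases base_or_root hy' hs with h | ⟨i, j, k, hij, hik, hjk, hB⟩
    · exact ⟨flip s, hf, by rw [← h, hff]⟩
    · set r := refl2 (rt i j k) (B_rt_self hij hik hjk) with hr
      have hrW : r ∈ W := refl2_mem _ _
      have hy'' := isCh_map hrW hy'
      have h0 : (r (flip s y)) 0 = y 0 - B (rt i j k) (flip s y) := by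
        rw [hr, refl2_apply, Pi.sub_apply, Pi.smul_apply, flip_apply, hs0]
        simp [rt]
      have hlt : ((r (flip s y)) 0).toNat ≤ n := by
        have := hy''.2.2
        omega
      obtain ⟨g, hg, hgy⟩ := ih _ hy'' hlt
      have hrr : ∀ x, r (r x) = x := r.left_inv
      refine ⟨flip s * (r * g), W.mul_mem hf (W.mul_mem hrW hg), ?_⟩
      rw [LinearEquiv.mul_apply, LinearEquiv.mul_apply, hgy, hrr, hff]

/-- `W` is transitive on chambers. -/
lemma exists_W {y : V} (hy : IsCh y) : ∃ g ∈ W, g c0 = y := exists_mem_c0 _ y hy le_rfl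

lemma eq_c0_aux : ∀ (n : ℕ) (y : V), IsCh y → (∀ F, B (line F) y ≤ -1) → (y 0).toNat ≤ n →
    y = c0 := by
  intro n
  induction n with
  | zero =>
    intro y hy _ hn
    have := hy.2.2
    omega
  | succ n ih =>
    intro y hy hF hn
    have hp : ∀ l : Fin 6, 1 ≤ y l.succ := by
      intro l
      have key : ∀ l : Fin 6, ∃ F, ∀ z : V, B (line F) z = -z l.succ := by
        intro l
        fin_cases l
        · exact ⟨0, fun z => by simp [B, S, line]⟩
        · exact ⟨1, fun z => by simp [B, S, line]⟩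
        · exact ⟨2, fun z => by simp [B, S, line]⟩
        · exact ⟨3, fun z => by simp [B, S, line]⟩
        · exact ⟨4, fun z => by simp [B, S, line]⟩
        · exact ⟨5, fun z => by simp [B, S, line]⟩
      obtain ⟨F, hFz⟩ := key l
      have := hF F
      rw [hFz] at this
      linarith
    rcases base_or_root hy hp with h | ⟨i, j, k, hij, hik, hjk, hB⟩
    · exact h
    · set r := refl2 (rt i j k) (B_rt_self hij hik hjk) with hr
      have hrW : r ∈ W := refl2_mem _ _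
      have hrc : r c0 = c0 := by
        rw [hr, refl2_apply, B_rt_c0 hij hik hjk]; simp
      have hy'' := isCh_map hrW hy
      have h0 : (r y) 0 = y 0 - B (rt i j k) y := by
        rw [hr, refl2_apply, Pi.sub_apply, Pi.smul_apply]
        simp [rt]
      have hrr : ∀ x, r (r x) = x := r.left_inv
      have hF' : ∀ F, B (line F) (r y) ≤ -1 := by
        intro F
        have h1 : IsWall c0 (r (line F)) := by
          rw [← hrc]; exact isWall_map hrW (isWall_line F)
        obtain ⟨G, hG⟩ := wall_c0 h1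
        rw [← W_B hrW, hrr, hG]
        exact hF G
      have hlt : ((r y) 0).toNat ≤ n := by
        have := hy''.2.2
        omega
      have := ih _ hy'' hF' hlt
      rw [← hrr y, this, hrc]

lemma odd_B {y v : V} (hy : ∀ i, y i % 2 = 1) (hv : B v v = 1) : B y v % 2 = 1 := by
  have h1 : (B y v - B v v) % 2 = 0 := by
    obtain ⟨a0, h0⟩ : ∃ a, y 0 = 2 * a + 1 := ⟨y 0 / 2, by have := hy 0; omega⟩
    obtain ⟨a1, h1⟩ : ∃ a, y 1 = 2 * a + 1 := ⟨y 1 / 2, by have := hy 1; omega⟩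
    obtain ⟨a2, h2⟩ : ∃ a, y 2 = 2 * a + 1 := ⟨y 2 / 2, by have := hy 2; omega⟩
    obtain ⟨a3, h3⟩ : ∃ a, y 3 = 2 * a + 1 := ⟨y 3 / 2, by have := hy 3; omega⟩
    obtain ⟨a4, h4⟩ : ∃ a, y 4 = 2 * a + 1 := ⟨y 4 / 2, by have := hy 4; omega⟩
    obtain ⟨a5, h5⟩ : ∃ a, y 5 = 2 * a + 1 := ⟨y 5 / 2, by have := hy 5; omega⟩
    obtain ⟨a6, h6⟩ : ∃ a, y 6 = 2 * a + 1 := ⟨y 6 / 2, by have := hy 6; omega⟩
    have par : ∀ a : ℤ, ∃ b, a * a - a = 2 * b := by
      intro a
      rcases Int.even_or_odd' a with ⟨b, hb | hb⟩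
      · exact ⟨2 * b * b - b, by rw [hb]; ring⟩
      · exact ⟨(2 * b + 1) * b, by rw [hb]; ring⟩
    obtain ⟨b0, g0⟩ := par (v 0)
    obtain ⟨b1, g1⟩ := par (v 1)
    obtain ⟨b2, g2⟩ := par (v 2)
    obtain ⟨b3, g3⟩ := par (v 3)
    obtain ⟨b4, g4⟩ := par (v 4)
    obtain ⟨b5, g5⟩ := par (v 5)
    obtain ⟨b6, g6⟩ := par (v 6)
    have : B y v - B v v = 2 * (-(a0 * v 0) + a1 * v 1 + a2 * v 2 + a3 * v 3 + a4 * v 4
        + a5 * v 5 + a6 * v 6 + b0 - b1 - b2 - b3 - b4 - b5 - b6) := by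
      simp only [B, S, h0, h1, h2, h3, h4, h5, h6]
      linear_combination -(g1 + g2 + g3 + g4 + g5 + g6) + g0
    rw [this]; simp
  omega

/-- Every chamber other than the base chamber has a wall separating it from the base chamber. -/
lemma exists_descent {y : V} (hy : IsCh y) (hne : y ≠ c0) : ∃ v, IsWall y v ∧ 0 < B v c0 := by
  obtain ⟨g, hg, rfl⟩ := exists_W hy
  have hgi : ∀ x, g (g⁻¹ x) = x := fun x => by
    rw [← LinearEquiv.mul_apply, mul_inv_cancel]; rfl
  have hgi' : g⁻¹ ∈ W := W.inv_mem hg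
  by_contra hc
  have h1 : ∀ F, B (line F) (g⁻¹ c0) ≤ -1 := by
    intro F
    have h2 : ¬ 0 < B (g (line F)) c0 := fun h => hc ⟨_, isWall_map hg (isWall_line F), h⟩
    have h3 : B (line F) (g⁻¹ c0) = B (g (line F)) c0 := by
      rw [← W_B hg (line F) (g⁻¹ c0), hgi]
    have h4 : B (g⁻¹ c0) (line F) % 2 = 1 :=
      odd_B (odd_of_mem hgi' isCh_c0.1) (B_line_self F)
    rw [B_comm] at h4
    omega
  have h2 := eq_c0_aux _ _ (isCh_map hgi' isCh_c0) h1 le_rfl
  apply hne
  have h3 := hgi c0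
  rw [h2] at h3
  exact h3

end Pool.Agent.Helper96.Hyp
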