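import Pool.Agent.Helper96.Hyp.Group

/-!
The colouring of chambers, the position function, and the groups `Gam n`.
-/

namespace Pool.Agent.Helper96.Hyp

/-! ### A lift of `hp` -/

/-- The linear map lifting `hp`. -/
def hfun (x : V) : V :=
  ![4 * x 0 - 2 * x 1 - 2 * x 2 - x 3 - 2 * x 4 - x 5 - x 6,
    2 * x 0 - x 1 - x 2 - x 4 - x 5 - x 6,
    2 * x 0 - x 1 - x 2 - x 3 - x 4 - x 6,
    x 0 - x 1 - x 2,
    x 0 - x 2 - x 4,
    x 0 - x 1 - x 4,
    2 * x 0 - x 1 - x 2 - x 3 - x 4 - x 5]

/-- The inverse of `hfun`. -/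
def hfun' (x : V) : V :=
  ![4 * x 0 - 2 * x 1 - 2 * x 2 - x 3 - x 4 - x 5 - 2 * x 6,
    2 * x 0 - x 1 - x 2 - x 3 - x 5 - x 6,
    2 * x 0 - x 1 - x 2 - x 3 - x 4 - x 6,
    x 0 - x 2 - x 6,
    2 * x 0 - x 1 - x 2 - x 4 - x 5 - x 6,
    x 0 - x 1 - x 6,
    x 0 - x 1 - x 2]

/-- The lift of `hp` as a linear automorphism. -/
def hlin : V ≃ₗ[ℤ] V where
  toFun := hfun
  invFun := hfun'
  map_add' x y := by
    funext i; fin_cases i <;> simp [hfun] <;> ring
  map_smul' a x := by
    funext i; fin_cases i <;> simp [hfun] <;> ring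
  left_inv x := by
    funext i; fin_cases i <;> simp [hfun, hfun'] <;> ring
  right_inv x := by
    funext i; fin_cases i <;> simp [hfun, hfun'] <;> ring

lemma hlin_apply (x : V) : hlin x = hfun x := rfl

lemma hlin_mem : hlin ∈ W := by
  have h1 : ∀ x y, B (hlin x) (hlin y) = B x y := by
    intro x y
    simp only [hlin_apply, B, S, hfun, Matrix.cons_val]
    ring
  refine ⟨h1, fun x hx hx0 => ?_⟩
  have h2 : hlin c0 = c0 := by rw [hlin_apply]; decide
  refine future_of_B_neg (x := c0) (by rw [isCh_c0.2.1]; norm_num) isCh_c0.2.2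
    (by rw [h1]; exact hx) ?_
  have h3 : B c0 (hlin x) = B c0 x := by
    have := h1 c0 x
    rwa [h2] at this
  rw [h3]
  exact B_neg_of_future (by rw [isCh_c0.2.1]; norm_num) isCh_c0.2.2 hx.le hx0

/-- The lift of `hp` in `W`. -/
def hW : W := ⟨hlin, hlin_mem⟩

lemma hW_cc : hW • cc = cc := Subtype.ext (by
  rw [smul_val]; show hfun c0 = c0; decide)

lemma pmHom_hW : pmHom hW = hp := by
  ext F
  have h : pm hW F = hp F := by
    apply pm_unique
    have h1 : hW.1 (line F) = line (hp F) := by
      show hfun (line F) = line (hp F)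
      revert F; decide +kernel
    rw [h1]; exact E2.refl _
  rw [pmHom_apply, h]

/-! ### The colouring -/

lemma lam_comm (x : U) (F G : Fin 27) : x + lam G + lam F = x + lam F + lam G := by
  rw [add_assoc, add_comm (lam G), ← add_assoc]

lemma U_add_self (x : U) : x + x = 0 := by
  funext i
  exact CharTwo.add_self_eq_zero _

/-- The colour of a chamber. -/
noncomputable def phi (y : Ch) : U := rec1 (fun F x => x + lam F) 0 y

lemma phi_cc : phi cc = 0 := rec1_cc _ _

lemma phi_st (y : Ch) (F : Fin 27) : phi (st F y) = phi y + lam F :=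
  rec1_st _ _ (fun F G _ x => lam_comm x F G)
    (fun F x => by rw [add_assoc, U_add_self, add_zero]) y F

lemma hp_pow_succ (k : ℕ) (F : Fin 27) : (hp ^ (k + 1)) F = hp ((hp ^ k) F) := by
  rw [pow_succ']; rfl

lemma rho_pow_lam (k : ℕ) (F : Fin 27) : rho^[k] (lam F) = lam ((hp ^ k) F) := by
  induction k with
  | zero => rfl
  | succ k ih => rw [Function.iterate_succ_apply', ih, rho_lam, hp_pow_succ]

lemma rho_zero : rho 0 = 0 := Matrix.mulVec_zero _

lemma rho_iter_add (k : ℕ) (x y : U) : rho^[k] (x + y) = rho^[k] x + rho^[k] y := by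
  induction k with
  | zero => rfl
  | succ k ih => rw [Function.iterate_succ_apply', ih, rho_add, ← Function.iterate_succ_apply' rho,
      ← Function.iterate_succ_apply' rho]

lemma rho_iter_zero (k : ℕ) : rho^[k] 0 = 0 := by
  induction k with
  | zero => rfl
  | succ k ih => rw [Function.iterate_succ_apply', ih, rho_zero]

lemma phi_smul {g : W} {k : ℕ} (hg : pmHom g = hp ^ k) (y : Ch) :
    phi (g • y) = rho^[k] (phi y) + phi (g • cc) := by
  induction y using ch_induction with
  | h0 => rw [phi_cc, rho_iter_zero, zero_add]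
  | hs y F ih =>
    rw [st_smul, phi_st, ih, phi_st, rho_iter_add, rho_pow_lam, hg]
    abel

lemma T_iter (k : ℕ) (x : U) : T^[k] x = rho^[k] x + T^[k] 0 := by
  induction k with
  | zero => simp
  | succ k ih =>
    rw [Function.iterate_succ_apply', ih, Function.iterate_succ_apply', Function.iterate_succ_apply',
      T, T, rho_add]
    abel

lemma rho_iter (k : ℕ) (x : U) : rho^[k] x = (R ^ k).mulVec x := by
  induction k with
  | zero => simp
  | succ k ih =>
    rw [Function.iterate_succ_apply', ih, rho, Matrix.mulVec_mulVec, pow_succ']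

lemma rho8 (x : U) : rho^[8] x = x := by
  rw [rho_iter, R8, Matrix.one_mulVec]

lemma T8_zero : T^[8] 0 = 0 := by decide +kernel

lemma T8 (x : U) : T^[8] x = x := by
  rw [T_iter, T8_zero, rho8, add_zero]

lemma T_mul8 (m : ℕ) (x : U) : T^[8 * m] x = x := by
  rw [Function.iterate_mul, Function.iterate_fixed]
  exact T8 x

lemma T_iter_injective (k : ℕ) : Function.Injective T^[k] := by
  intro x y h
  have h1 : T^[7 * k] (T^[k] x) = T^[7 * k] (T^[k] y) := by rw [h]
  rw [← Function.iterate_add_apply, ← Function.iterate_add_apply,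
    show 7 * k + k = 8 * k by ring, T_mul8, T_mul8] at h1
  exact h1

/-! ### The position function -/

/-- Crossing a wall of type `F`. -/
def th (F : Fin 27) (i : ℤ) : ℤ :=
  if F = 19 then (if i % 2 = 0 then i - 1 else i + 1)
  else if Adj 19 F then i
  else (if i % 2 = 0 then i + 1 else i - 1)

lemma th_invol (F : Fin 27) (i : ℤ) : th F (th F i) = i := by
  unfold th
  split_ifs <;> omega

lemma th_comm {F G : Fin 27} (h : Adj F G) (i : ℤ) : th F (th G i) = th G (th F i) := by
  by_cases hF : F = 19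
  · subst hF
    have hG : G ≠ 19 := h.ne.symm
    have e : ∀ j, th G j = j := fun j => by
      unfold th; rw [if_neg hG, if_pos h]
    rw [e, e]
  · by_cases hG : G = 19
    · subst hG
      have e : ∀ j, th F j = j := fun j => by
        unfold th; rw [if_neg hF, if_pos h.symm]
      rw [e, e]
    · unfold th
      rw [if_neg hF, if_neg hG, if_neg hF, if_neg hG]
      split_ifs <;> omega

/-- The position of a chamber. -/
noncomputable def pos (y : Ch) : ℤ := rec1 th 0 y

lemma pos_cc : pos cc = 0 := rec1_cc _ _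

lemma pos_st (y : Ch) (F : Fin 27) : pos (st F y) = th F (pos y) :=
  rec1_st _ _ (fun _ _ h x => th_comm h x) th_invol y F

/-- The dihedral action on positions. -/
def ps (q i : ℤ) : ℤ := if q % 2 = 0 then i + q else q - i

lemma ps_th (q : ℤ) (F : Fin 27) (i : ℤ) : th F (ps q i) = ps q (th F i) := by
  unfold th ps
  split_ifs <;> omega

lemma hp19 (k : ℕ) : (hp ^ k) 19 = 19 := by
  induction k with
  | zero => rfl
  | succ k ih => rw [hp_pow_succ, ih]; decide

lemma th_pm {g : W} {k : ℕ} (hg : pmHom g = hp ^ k) (F : Fin 27) (i : ℤ) :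
    th (pmHom g F) i = th F i := by
  have h19 : pmHom g 19 = 19 := by rw [hg, hp19]
  have h1 : pmHom g F = 19 ↔ F = 19 := by
    constructor
    · intro h
      apply (pmHom g).injective
      rw [h, h19]
    · rintro rfl; exact h19
  have h2 : Adj 19 (pmHom g F) ↔ Adj 19 F := by
    have := adj_pm g 19 F
    rwa [h19] at this
  unfold th
  simp only [h1, h2]

lemma pos_smul {g : W} {k : ℕ} (hg : pmHom g = hp ^ k) (y : Ch) :
    pos (g • y) = ps (pos (g • cc)) (pos y) := by
  induction y using ch_induction with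
  | h0 =>
    rw [pos_cc]; unfold ps; split_ifs <;> omega
  | hs y F ih => rw [st_smul, pos_st, ih, pos_st, th_pm hg, ps_th]

/-! ### The groups -/

/-- The group `Gam n`. -/
def Gam (n : ℕ) : Subgroup W where
  carrier := {g | ∃ k : ℕ, pmHom g = hp ^ k ∧ phi (g • cc) = T^[k] 0 ∧
    ((2 * (n : ℤ)) ∣ pos (g • cc) ∨ (2 * (n : ℤ)) ∣ pos (g • cc) + 1)}
  one_mem' := ⟨0, by simp, by rw [one_smul, phi_cc]; rfl, Or.inl (by rw [one_smul, pos_cc]; simp)⟩
  mul_mem' := by
    rintro g g' ⟨k, h1, h2, h3⟩ ⟨k', h1', h2', h3'⟩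
    refine ⟨k + k', by rw [map_mul, h1, h1', pow_add], ?_, ?_⟩
    · rw [mul_smul, phi_smul h1, h2, h2', ← T_iter, Function.iterate_add_apply]
    · rw [mul_smul, pos_smul h1]
      unfold ps
      rcases h3 with ⟨a, ha⟩ | ⟨a, ha⟩ <;> rcases h3' with ⟨b, hb⟩ | ⟨b, hb⟩ <;> split_ifs with hq
      · exact Or.inl ⟨a + b, by rw [ha, hb]; ring⟩
      · exact absurd (by rw [ha, mul_assoc]; simp) hq
      · right; exact ⟨a + b, by rw [mul_add, ← ha, ← hb]; ring⟩
      · exact absurd (by rw [ha, mul_assoc]; simp) hq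
      · exfalso
        have : (pos (g • cc) + 1) % 2 = 0 := by rw [ha, mul_assoc]; simp
        omega
      · right; exact ⟨a - b, by rw [mul_sub, ← ha, ← hb]; ring⟩
      · exfalso
        have : (pos (g • cc) + 1) % 2 = 0 := by rw [ha, mul_assoc]; simp
        omega
      · left; exact ⟨a - b, by rw [mul_sub, ← ha, ← hb]; ring⟩
  inv_mem' := by
    rintro g ⟨k, h1, h2, h3⟩
    have hk : pmHom g⁻¹ = hp ^ (7 * k) := by
      rw [map_inv, h1, inv_eq_iff_mul_eq_one, ← pow_add, show k + 7 * k = 8 * k by ring, pow_mul,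
        hp8, one_pow]
    refine ⟨7 * k, hk, ?_, ?_⟩
    · have h4 := phi_smul h1 (g⁻¹ • cc)
      rw [smul_inv_smul, phi_cc, h2, ← T_iter] at h4
      apply T_iter_injective k
      rw [← h4, ← Function.iterate_add_apply, show k + 7 * k = 8 * k by ring, T_mul8]
    · have h4 := pos_smul h1 (g⁻¹ • cc)
      rw [smul_inv_smul, pos_cc] at h4
      unfold ps at h4
      rcases h3 with ⟨a, ha⟩ | ⟨a, ha⟩
      · have : pos (g • cc) % 2 = 0 := by rw [ha, mul_assoc]; simp
        rw [if_pos this] at h4
        left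
        exact ⟨-a, by rw [mul_neg, ← ha]; omega⟩
      · have : (pos (g • cc) + 1) % 2 = 0 := by rw [ha, mul_assoc]; simp
        rw [if_neg (by omega)] at h4
        right
        exact ⟨a, by rw [← ha]; omega⟩

end Pool.Agent.Helper96.Hyp
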