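import Pool.Agent.Helper96.Hyp.Chambers

/-!
The action of the integral Lorentz group on chambers and wall types, the colouring, and the
definition of the groups `Gam n`.
-/

namespace Pool.Agent.Helper96.Hyp

instance : MulAction W Ch where
  smul g y := ⟨g.1 y.1, isCh_map g.2 y.2⟩
  one_smul _ := Subtype.ext rfl
  mul_smul _ _ _ := Subtype.ext rfl

lemma smul_val (g : W) (y : Ch) : (g • y).1 = g.1 y.1 := rfl

lemma exists_pm (g : W) (F : Fin 27) : ∃ G, E2 (g.1 (line F)) (line G) := by
  have h : IsWall (g • cc).1 (g.1 (line F)) := isWall_map g.2 (isWall_line F)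
  obtain ⟨G, hG⟩ := exists_nb h
  exact ⟨G, by rw [hG]; exact nb_E2 _ _⟩

/-- The action on wall types. -/
noncomputable def pm (g : W) (F : Fin 27) : Fin 27 := (exists_pm g F).choose

lemma pm_spec (g : W) (F : Fin 27) : E2 (g.1 (line F)) (line (pm g F)) := (exists_pm g F).choose_spec

lemma pm_unique {g : W} {F G : Fin 27} (h : E2 (g.1 (line F)) (line G)) : pm g F = G :=
  line_E2 ((pm_spec g F).symm.trans h)

lemma pm_one (F : Fin 27) : pm 1 F = F := pm_unique (E2.refl _)

lemma pm_mul (g h : W) (F : Fin 27) : pm (g * h) F = pm g (pm h F) :=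
  pm_unique (((pm_spec h F).map g.1).trans (pm_spec g _))

/-- The action on wall types as a homomorphism. -/
noncomputable def pmHom : W →* Equiv.Perm (Fin 27) :=
  MonoidHom.toHomPerm
    { toFun := fun g => (pm g : Function.End (Fin 27))
      map_one' := funext pm_one
      map_mul' := fun g h => funext (pm_mul g h) }

lemma pmHom_apply (g : W) (F : Fin 27) : pmHom g F = pm g F := rfl

lemma nb_smul (g : W) (y : Ch) (F : Fin 27) : nb (g • y) (pmHom g F) = g.1 (nb y F) :=
  (nb_unique (isWall_map g.2 (nb_wall y F)) (((nb_E2 y F).map g.1).trans (pm_spec g F))).symm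

lemma st_smul (g : W) (y : Ch) (F : Fin 27) : g • st F y = st (pmHom g F) (g • y) := by
  apply Subtype.ext
  rw [st_val, nb_smul, smul_val, smul_val, st_val, map_add, map_smul]

lemma adj_pm (g : W) (F G : Fin 27) : Adj (pmHom g F) (pmHom g G) ↔ Adj F G := by
  unfold Adj
  rw [← B_nb (g • cc) (pmHom g F), nb_smul, nb_smul, W_B g.2, B_nb]

/-- An element fixing a chamber and all wall types is trivial. -/
lemma eq_one_of_fix {g : W} {y : Ch} (hy : g • y = y) (hp : pmHom g = 1) : g = 1 := by
  apply Subtype.ext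
  have h1 : ∀ F, g.1 (nb y F) = nb y F := by
    intro F
    rw [← nb_smul, hp, hy]; rfl
  have h2 : (wy y)⁻¹ * g.1 * wy y = 1 := by
    apply ext_of_lines
    intro F
    rw [LinearEquiv.mul_apply, LinearEquiv.mul_apply, ← nb, h1, nb, inv_mul_app]; rfl
  calc g.1 = wy y * ((wy y)⁻¹ * g.1 * wy y) * (wy y)⁻¹ := by group
    _ = 1 := by rw [h2]; group

/-- For every chamber there is a unique type-preserving element carrying `cc` to it. -/
noncomputable def wyW (y : Ch) : W := ⟨wy y, wy_mem y⟩

lemma wyW_cc (y : Ch) : wyW y • cc = y := Subtype.ext (wy_c0 y)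

lemma pmHom_wyW (y : Ch) : pmHom (wyW y) = 1 := by
  ext F
  rw [pmHom_apply, pm_unique (wy_triv y (line F))]; rfl

/-! ### The colouring data -/

/-- Colours of the wall types, encoded as binary numbers. -/
def code : Fin 27 → ℕ :=
  ![1, 2, 4, 8, 16, 32, 60, 35, 5, 27, 51, 43, 13, 12, 31, 3, 39, 54, 40, 49, 26, 37, 53, 29, 10,
    63, 17]

/-- A permutation of order eight of the wall types. -/
def hpf : Fin 27 → Fin 27 :=
  ![9, 10, 20, 8, 16, 12, 22, 21, 0, 24, 1, 5, 2, 14, 4, 18, 25, 15, 3, 19, 26, 13, 11, 7, 17, 23,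
    6]

/-- Its inverse. -/
def hpi : Fin 27 → Fin 27 :=
  ![8, 10, 12, 18, 14, 11, 26, 23, 3, 0, 1, 22, 5, 21, 13, 17, 4, 24, 15, 19, 2, 7, 6, 25, 9, 16,
    20]

/-- The permutation of order eight. -/
def hp : Equiv.Perm (Fin 27) where
  toFun := hpf
  invFun := hpi
  left_inv := by decide
  right_inv := by decide

/-- Colours. -/
abbrev U := Fin 6 → ZMod 2

/-- Binary digits. -/
def toU (a : ℕ) : U := fun j => if a.testBit j then 1 else 0

/-- The colour of a wall type. -/
def lam (F : Fin 27) : U := toU (code F)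

/-- The matrix of the action of `hp` on colours. -/
def R : Matrix (Fin 6) (Fin 6) (ZMod 2) := fun i j => lam (hpf (j.castLE (by norm_num))) i

/-- The action of `hp` on colours. -/
def rho (x : U) : U := R.mulVec x

lemma rho_add (x y : U) : rho (x + y) = rho x + rho y := Matrix.mulVec_add _ _ _

lemma rho_lam (F : Fin 27) : rho (lam F) = lam (hp F) := by
  revert F; decide +kernel

/-- The affine action. -/
def T (x : U) : U := rho x + toU 10

lemma R8 : R ^ 8 = 1 := by decide +kernel

lemma hp8 : hp ^ 8 = 1 := by decide +kernel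

end Pool.Agent.Helper96.Hyp
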