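import Mathlib

/-!
Integral vectors of the Lorentz lattice `I_{6,1}`: chambers, walls and descent.
-/

namespace Pool.Agent.Helper96.Hyp

/-- Integer vectors with seven coordinates. -/
abbrev V := Fin 7 → ℤ

/-- The spatial part of the Lorentz form. -/
def S (x y : V) : ℤ :=
  x 1 * y 1 + x 2 * y 2 + x 3 * y 3 + x 4 * y 4 + x 5 * y 5 + x 6 * y 6

/-- The Lorentz form on integer vectors. -/
def B (x y : V) : ℤ := -(x 0 * y 0) + S x y

lemma B_comm (x y : V) : B x y = B y x := by simp only [B, S]; ring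
lemma B_add_left (x y z : V) : B (x + y) z = B x z + B y z := by
  simp only [B, S, Pi.add_apply]; ring
lemma B_add_right (x y z : V) : B x (y + z) = B x y + B x z := by
  simp only [B, S, Pi.add_apply]; ring
lemma B_sub_left (x y z : V) : B (x - y) z = B x z - B y z := by
  simp only [B, S, Pi.sub_apply]; ring
lemma B_sub_right (x y z : V) : B x (y - z) = B x y - B x z := by
  simp only [B, S, Pi.sub_apply]; ring
lemma B_neg_left (x y : V) : B (-x) y = -B x y := by
  simp only [B, S, Pi.neg_apply]; ring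
lemma B_neg_right (x y : V) : B x (-y) = -B x y := by
  simp only [B, S, Pi.neg_apply]; ring
lemma B_smul_left (a : ℤ) (x y : V) : B (a • x) y = a * B x y := by
  simp only [B, S, Pi.smul_apply, smul_eq_mul]; ring
lemma B_smul_right (a : ℤ) (x y : V) : B x (a • y) = a * B x y := by
  simp only [B, S, Pi.smul_apply, smul_eq_mul]; ring
lemma B_zero_left (x : V) : B 0 x = 0 := by simp [B, S]
lemma B_zero_right (x : V) : B x 0 = 0 := by simp [B, S]

lemma B_sum_left {ι : Type*} (s : Finset ι) (f : ι → V) (x : V) :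
    B (∑ i ∈ s, f i) x = ∑ i ∈ s, B (f i) x := by
  classical
  induction s using Finset.induction_on with
  | empty => simp [B_zero_left]
  | insert a s ha ih => rw [Finset.sum_insert ha, Finset.sum_insert ha, B_add_left, ih]

lemma B_sum_right {ι : Type*} (s : Finset ι) (f : ι → V) (x : V) :
    B x (∑ i ∈ s, f i) = ∑ i ∈ s, B x (f i) := by
  rw [B_comm, B_sum_left]
  exact Finset.sum_congr rfl fun i _ => B_comm _ _

/-- Cauchy-Schwarz for the spatial part. -/
lemma S_cs (x y : V) : S x y ^ 2 ≤ S x x * S y y := by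
  have h := Finset.sum_mul_sq_le_sq_mul_sq (Finset.univ : Finset (Fin 6))
    (fun i => x i.succ) (fun i => y i.succ)
  simp only [Fin.sum_univ_six] at h
  have e : ∀ z : V, S z z = z 1 ^ 2 + z 2 ^ 2 + z 3 ^ 2 + z 4 ^ 2 + z 5 ^ 2 + z 6 ^ 2 := by
    intro z; simp only [S]; ring
  rw [e x, e y]
  simpa [S] using h

lemma S_nonneg (x : V) : 0 ≤ S x x := by
  have p1 := mul_self_nonneg (x 1)
  have p2 := mul_self_nonneg (x 2)
  have p3 := mul_self_nonneg (x 3)
  have p4 := mul_self_nonneg (x 4)
  have p5 := mul_self_nonneg (x 5)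
  have p6 := mul_self_nonneg (x 6)
  simp only [S]; linarith

/-- Future timelike or null vectors. -/
lemma B_neg_of_future {x y : V} (hx : B x x < 0) (hx0 : 0 < x 0) (hy : B y y ≤ 0) (hy0 : 0 < y 0) :
    B x y < 0 := by
  have h1 : S x x < x 0 * x 0 := by simp only [B] at hx; linarith
  have h2 : S y y ≤ y 0 * y 0 := by simp only [B] at hy; linarith
  have h3 := S_cs x y
  have h4 := S_nonneg x
  have h5 := S_nonneg y
  by_contra hc
  have h6 : x 0 * y 0 ≤ S x y := by simp only [B] at hc; linarith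
  have h7 : 0 < x 0 * y 0 := mul_pos hx0 hy0
  have h8 : (x 0 * y 0) ^ 2 ≤ S x y ^ 2 := by nlinarith
  have h9 : S x x * S y y ≤ S x x * (y 0 * y 0) := mul_le_mul_of_nonneg_left h2 h4
  have h10 : S x x * (y 0 * y 0) < x 0 * x 0 * (y 0 * y 0) :=
    mul_lt_mul_of_pos_right h1 (mul_pos hy0 hy0)
  nlinarith

/-- The orthogonal complement of a timelike vector is positive definite. -/
lemma B_nonneg_of_orth {z v : V} (hz : B z z < 0) (h : B v z = 0) : 0 ≤ B v v := by
  have h1 : S z z < z 0 * z 0 := by simp only [B] at hz; linarith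
  have h2 : v 0 * z 0 = S v z := by simp only [B] at h; linarith
  have h3 := S_cs v z
  have h4 := S_nonneg v
  have h5 := S_nonneg z
  rw [← h2] at h3
  by_contra hc
  have h6 : S v v < v 0 * v 0 := by simp only [B] at hc; linarith
  have h7 : 0 < z 0 * z 0 := by linarith
  have h8 : S v v * S z z ≤ S v v * (z 0 * z 0) := mul_le_mul_of_nonneg_left h1.le h4
  have h9 : S v v * (z 0 * z 0) < v 0 * v 0 * (z 0 * z 0) := mul_lt_mul_of_pos_right h6 h7
  nlinarith

lemma eq_zero_of_orth {z v : V} (hz : B z z < 0) (h : B v z = 0) (h0 : B v v = 0) : v = 0 := by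
  have h1 : S z z < z 0 * z 0 := by simp only [B] at hz; linarith
  have h2 : v 0 * z 0 = S v z := by simp only [B] at h; linarith
  have h3 := S_cs v z
  have h4 := S_nonneg v
  have h5 := S_nonneg z
  rw [← h2] at h3
  have h6 : S v v = v 0 * v 0 := by simp only [B] at h0; linarith
  have h7 : 0 < z 0 * z 0 := by linarith
  have h8 : v 0 * v 0 * (z 0 * z 0 - S z z) ≤ 0 := by
    rw [h6] at h3; nlinarith
  have h9 : v 0 * v 0 ≤ 0 := by
    by_contra hc
    have : 0 < v 0 * v 0 * (z 0 * z 0 - S z z) := mul_pos (by linarith) (by linarith)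
    linarith
  have h10 : v 0 = 0 := by nlinarith [mul_self_nonneg (v 0)]
  have h11 : S v v = 0 := by rw [h6, h10]; ring
  simp only [S] at h11
  have p1 := mul_self_nonneg (v 1)
  have p2 := mul_self_nonneg (v 2)
  have p3 := mul_self_nonneg (v 3)
  have p4 := mul_self_nonneg (v 4)
  have p5 := mul_self_nonneg (v 5)
  have p6 := mul_self_nonneg (v 6)
  have e1 : v 1 = 0 := mul_self_eq_zero.1 (by linarith)
  have e2 : v 2 = 0 := mul_self_eq_zero.1 (by linarith)
  have e3 : v 3 = 0 := mul_self_eq_zero.1 (by linarith)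
  have e4 : v 4 = 0 := mul_self_eq_zero.1 (by linarith)
  have e5 : v 5 = 0 := mul_self_eq_zero.1 (by linarith)
  have e6 : v 6 = 0 := mul_self_eq_zero.1 (by linarith)
  funext i
  fin_cases i <;> assumption

end Pool.Agent.Helper96.Hyp
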