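import Pool.Agent.Helper96.Hyp.Gamma

/-!
The groups `Gam n` act freely on chambers, with exactly `8 n` orbits.
-/

namespace Pool.Agent.Helper96.Hyp

lemma exists_smul_of_rel {n : ℕ} {y y' : Ch} (h1 : ∃ k : ℕ, phi y' = T^[k] (phi y))
    (h2 : (2 * (n : ℤ)) ∣ pos y - pos y' ∨ (2 * (n : ℤ)) ∣ pos y + pos y' + 1) :
    ∃ g ∈ Gam n, g • y = y' := by
  obtain ⟨k, hk⟩ := h1
  have hcc : hW ^ k • cc = cc := by
    clear hk
    induction k with
    | zero => simp
    | succ k ih => rw [pow_succ, mul_smul, hW_cc, ih]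
  have hwi : (wyW y)⁻¹ • y = cc := by
    rw [inv_smul_eq_iff, wyW_cc]
  set g := wyW y' * hW ^ k * (wyW y)⁻¹ with hg
  have hgy : g • y = y' := by
    rw [hg, mul_smul, mul_smul, hwi, hcc, wyW_cc]
  have hgp : pmHom g = hp ^ k := by
    rw [hg, map_mul, map_mul, map_inv, map_pow, pmHom_wyW, pmHom_wyW, pmHom_hW]; simp
  refine ⟨g, ⟨k, hgp, ?_, ?_⟩, hgy⟩
  · have := phi_smul hgp y
    rw [hgy, hk, T_iter] at this
    exact (add_left_cancel this).symm
  · have := pos_smul hgp y
    rw [hgy] at this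
    unfold ps at this
    split_ifs at this with hq
    · rcases h2 with ⟨a, ha⟩ | ⟨a, ha⟩
      · left; exact ⟨-a, by rw [mul_neg, ← ha]; omega⟩
      · exfalso
        have h3 : (pos y + pos y' + 1) % 2 = 0 := by rw [ha, mul_assoc]; simp
        omega
    · rcases h2 with ⟨a, ha⟩ | ⟨a, ha⟩
      · exfalso
        have h3 : (pos y - pos y') % 2 = 0 := by rw [ha, mul_assoc]; simp
        omega
      · right; exact ⟨a, by rw [← ha]; omega⟩

lemma rel_of_smul {n : ℕ} {y : Ch} {g : W} (hg : g ∈ Gam n) :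
    (∃ k : ℕ, pmHom g = hp ^ k ∧ phi (g • y) = T^[k] (phi y)) ∧
    ((2 * (n : ℤ)) ∣ pos y - pos (g • y) ∨ (2 * (n : ℤ)) ∣ pos y + pos (g • y) + 1) := by
  obtain ⟨k, h1, h2, h3⟩ := hg
  refine ⟨⟨k, h1, by rw [phi_smul h1, h2, ← T_iter]⟩, ?_⟩
  rw [pos_smul h1]
  unfold ps
  rcases h3 with ⟨a, ha⟩ | ⟨a, ha⟩ <;> split_ifs with hq
  · left; exact ⟨-a, by rw [mul_neg, ← ha]; ring⟩
  · exact absurd (by rw [ha, mul_assoc]; simp) hq
  · exfalso
    have : (pos (g • cc) + 1) % 2 = 0 := by rw [ha, mul_assoc]; simp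
    omega
  · right; exact ⟨a, by rw [← ha]; ring⟩

/-! ### All pairs (colour, position) occur -/

/-- Colour differences which can be realized without changing the position. -/
def D : AddSubmonoid U where
  carrier := {d | ∀ y : Ch, ∃ y', pos y' = pos y ∧ phi y' = phi y + d}
  zero_mem' := fun y => ⟨y, rfl, by simp⟩
  add_mem' := by
    intro a b ha hb y
    obtain ⟨y1, h1, h2⟩ := ha y
    obtain ⟨y2, h3, h4⟩ := hb y1
    exact ⟨y2, h3.trans h1, by rw [h4, h2, add_assoc]⟩

lemma lam_mem_D {F : Fin 27} (h : Adj 19 F) : lam F ∈ D := fun y =>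
  ⟨st F y, by rw [pos_st]; unfold th; rw [if_neg h.ne.symm, if_pos h], phi_st y F⟩

lemma D_top (a : U) : a ∈ D := by
  have h0 : lam 0 ∈ D := lam_mem_D (by decide)
  have h2 : lam 2 ∈ D := lam_mem_D (by decide)
  have h3 : lam 3 ∈ D := lam_mem_D (by decide)
  have h5 : lam 5 ∈ D := lam_mem_D (by decide)
  have h6 : lam 6 ∈ D := lam_mem_D (by decide)
  have h9 : lam 9 ∈ D := lam_mem_D (by decide)
  have e0 : (Pi.single 0 1 : U) = lam 0 := by decide
  have e2 : (Pi.single 2 1 : U) = lam 2 := by decide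
  have e3 : (Pi.single 3 1 : U) = lam 3 := by decide
  have e5 : (Pi.single 5 1 : U) = lam 5 := by decide
  have e4 : (Pi.single 4 1 : U) = lam 6 + lam 5 + lam 3 + lam 2 := by decide
  have e1 : (Pi.single 1 1 : U) = lam 9 + (lam 6 + lam 5 + lam 3 + lam 2) + lam 3 + lam 0 := by
    decide
  have g4 : lam 6 + lam 5 + lam 3 + lam 2 ∈ D := add_mem (add_mem (add_mem h6 h5) h3) h2
  have key : ∀ j : Fin 6, (Pi.single j 1 : U) ∈ D := by
    intro j
    fin_cases j
    · simp only [Fin.zero_eta]; rw [e0]; exact h0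
    · simp only [Fin.mk_one]; rw [e1]; exact add_mem (add_mem (add_mem h9 g4) h3) h0
    · simp only [Fin.reduceFinMk]; rw [e2]; exact h2
    · simp only [Fin.reduceFinMk]; rw [e3]; exact h3
    · simp only [Fin.reduceFinMk]; rw [e4]; exact g4
    · simp only [Fin.reduceFinMk]; rw [e5]; exact h5
  have hz : ∀ z : ZMod 2, z = 0 ∨ z = 1 := by decide
  have ha : a = ∑ j, Pi.single j (a j) := by
    funext i; simp
  rw [ha]
  refine sum_mem fun j _ => ?_
  rcases hz (a j) with h | h
  · rw [h, Pi.single_zero]; exact zero_mem _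
  · rw [h]; exact key j

lemma exists_pos (i : ℤ) : ∃ y : Ch, pos y = i := by
  have hup : ∀ y : Ch, ∃ y', pos y' = pos y + 1 := by
    intro y
    by_cases h : pos y % 2 = 0
    · refine ⟨st 1 y, ?_⟩
      rw [pos_st]
      unfold th
      rw [if_neg (by decide), if_neg (by decide), if_pos h]
    · refine ⟨st 19 y, ?_⟩
      rw [pos_st]
      unfold th
      rw [if_pos rfl, if_neg h]
  have hdn : ∀ y : Ch, ∃ y', pos y' = pos y - 1 := by
    intro y
    by_cases h : pos y % 2 = 0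
    · refine ⟨st 19 y, ?_⟩
      rw [pos_st]
      unfold th
      rw [if_pos rfl, if_pos h]
    · refine ⟨st 1 y, ?_⟩
      rw [pos_st]
      unfold th
      rw [if_neg (by decide), if_neg (by decide), if_neg h]
  induction i with
  | zero => exact ⟨cc, pos_cc⟩
  | succ i ih =>
    obtain ⟨y, hy⟩ := ih
    obtain ⟨y', h⟩ := hup y
    exact ⟨y', by rw [h, hy]⟩
  | pred i ih =>
    obtain ⟨y, hy⟩ := ih
    obtain ⟨y', h⟩ := hdn y
    exact ⟨y', by rw [h, hy]⟩

lemma exists_phi_pos (a : U) (i : ℤ) : ∃ y : Ch, phi y = a ∧ pos y = i := by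
  obtain ⟨y, hy⟩ := exists_pos i
  obtain ⟨y', h1, h2⟩ := D_top (phi y + a) y
  refine ⟨y', ?_, h1.trans hy⟩
  rw [h2, ← add_assoc, U_add_self, zero_add]

/-! ### Orbits of `T` -/

/-- Representatives of the orbits of `T`. -/
def rep : Fin 8 → ℕ := ![0, 1, 2, 3, 5, 6, 8, 13]

lemma exists_rep (a : U) : ∃ j : Fin 8, ∃ k : Fin 8, T^[k.1] (toU (rep j)) = a := by
  revert a; decide +kernel

lemma rep_unique (j j' : Fin 8) (k : Fin 8) (h : T^[k.1] (toU (rep j)) = toU (rep j')) :
    j = j' ∧ k = 0 := by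
  revert j j' k; decide +kernel

lemma T_mod8 (k : ℕ) (x : U) : T^[k] x = T^[k % 8] x := by
  conv_lhs => rw [← Nat.mod_add_div k 8, Function.iterate_add_apply, T_mul8]

lemma T_free {k : ℕ} {a : U} (h : T^[k] a = a) : 8 ∣ k := by
  obtain ⟨j, m, rfl⟩ := exists_rep a
  have h1 : T^[k] (toU (rep j)) = toU (rep j) := by
    apply T_iter_injective m.1
    rw [← Function.iterate_add_apply, add_comm, Function.iterate_add_apply, h]
  rw [T_mod8] at h1
  have := (rep_unique j j ⟨k % 8, Nat.mod_lt _ (by norm_num)⟩ h1).2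
  have h2 : k % 8 = 0 := congrArg Fin.val this
  exact Nat.dvd_of_mod_eq_zero h2

lemma hp_pow_of_dvd {k : ℕ} (h : 8 ∣ k) : hp ^ k = 1 := by
  obtain ⟨m, rfl⟩ := h
  rw [pow_mul, hp8, one_pow]

/-- `Gam n` acts freely on chambers. -/
lemma free_Ch {n : ℕ} {g : W} (hg : g ∈ Gam n) {y : Ch} (h : g • y = y) : g = 1 := by
  obtain ⟨⟨k, h1, h2⟩, -⟩ := rel_of_smul (y := y) hg
  rw [h] at h2
  exact eq_one_of_fix h (by rw [h1, hp_pow_of_dvd (T_free h2.symm)])

/-- The number of orbits of `Gam n` on chambers is `8 n`. -/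
lemma card_orbits (n : ℕ) (hn : 1 ≤ n) :
    Nat.card (MulAction.orbitRel.Quotient (Gam n) Ch) = 8 * n := by
  classical
  choose f hf using fun p : Fin 8 × Fin n => exists_phi_pos (toU (rep p.1)) (p.2.1 : ℤ)
  have hrel : ∀ y y' : Ch, (MulAction.orbitRel (Gam n) Ch) y y' ↔
      ((∃ k : ℕ, phi y' = T^[k] (phi y)) ∧
      ((2 * (n : ℤ)) ∣ pos y - pos y' ∨ (2 * (n : ℤ)) ∣ pos y + pos y' + 1)) := by
    intro y y'
    constructor
    · intro h
      have h' : y' ∈ MulAction.orbit (Gam n) y := (MulAction.orbitRel (Gam n) Ch).symm h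
      obtain ⟨⟨g, hg⟩, hgy⟩ := h'
      have hgy' : g • y = y' := hgy
      obtain ⟨⟨k, _, h2⟩, h3⟩ := rel_of_smul (y := y) hg
      rw [hgy'] at h2 h3
      exact ⟨⟨k, h2⟩, h3⟩
    · rintro ⟨h1, h2⟩
      obtain ⟨g, hg, hgy⟩ := exists_smul_of_rel h1 h2
      apply (MulAction.orbitRel (Gam n) Ch).symm
      show y' ∈ MulAction.orbit (Gam n) y
      exact ⟨⟨g, hg⟩, hgy⟩
  have hbij : Function.Bijective (fun p : Fin 8 × Fin n =>
      (Quotient.mk (MulAction.orbitRel (Gam n) Ch) (f p) :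
        MulAction.orbitRel.Quotient (Gam n) Ch)) := by
    constructor
    · rintro ⟨j, i⟩ ⟨j', i'⟩ h
      have h1 := (hrel _ _).1 (Quotient.exact h)
      rw [(hf (j, i)).1, (hf (j, i)).2, (hf (j', i')).1, (hf (j', i')).2] at h1
      obtain ⟨⟨k, hk⟩, h2⟩ := h1
      rw [T_mod8] at hk
      have hj := (rep_unique j j' ⟨k % 8, Nat.mod_lt _ (by norm_num)⟩ hk.symm).1
      have hi : i = i' := by
        apply Fin.ext
        have b1 := i.2
        have b2 := i'.2
        rcases h2 with ⟨a, ha⟩ | ⟨a, ha⟩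
        · have : a = 0 := by
            by_contra hc
            rcases lt_or_gt_of_ne hc with hc | hc
            · nlinarith
            · nlinarith
          subst this
          simp only at ha
          omega
        · exfalso
          simp only at ha
          have h3 : 0 < a := by
            by_contra hc
            nlinarith
          nlinarith
      rw [hj, hi]
    · intro q
      induction q using Quotient.inductionOn with
      | h y =>
        obtain ⟨j, k, hk⟩ := exists_rep (phi y)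
        have hn' : (0 : ℤ) < 2 * n := by omega
        have hr0 := Int.emod_nonneg (pos y) hn'.ne'
        have hr1 := Int.emod_lt_of_pos (pos y) hn'
        have hdiv := Int.emod_add_mul_ediv (pos y) (2 * n)
        obtain ⟨i, hi⟩ : ∃ i : Fin n, (2 * (n : ℤ)) ∣ (i.1 : ℤ) - pos y ∨
            (2 * (n : ℤ)) ∣ (i.1 : ℤ) + pos y + 1 := by
          rcases lt_or_ge (pos y % (2 * n)) n with h | h
          · refine ⟨⟨(pos y % (2 * n)).toNat, by omega⟩, Or.inl ⟨-(pos y / (2 * n)), ?_⟩⟩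
            simp only
            rw [Int.toNat_of_nonneg hr0]
            linarith
          · refine ⟨⟨(2 * n - 1 - pos y % (2 * n)).toNat, by omega⟩,
              Or.inr ⟨pos y / (2 * n) + 1, ?_⟩⟩
            simp only
            rw [Int.toNat_of_nonneg (by omega)]
            linarith
        refine ⟨(j, i), ?_⟩
        apply Quotient.sound
        apply (hrel _ _).2
        rw [(hf (j, i)).1, (hf (j, i)).2]
        exact ⟨⟨k.1, hk.symm⟩, hi⟩
  rw [← Nat.card_eq_of_bijective _ hbij]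
  simp

end Pool.Agent.Helper96.Hyp
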